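import Pool.Agent.X325.OB.SmallBase
import Pool.Agent.Y191.LcLow

/-!
# Towers over subvarieties of projective space
-/

set_option autoImplicit false
set_option linter.overlappingInstances false
set_option linter.unusedSectionVars false

open FF Module Pool.Agent.W602.Cov Pool.Agent.W602.GT
open Pool.Agent.Y172 Pool.Agent.Y191
open Pool.Agent.X180.Tow (HasForms)
open Pool.Agent.X180.Iso (hor ver)

namespace Pool.Agent.X325.OB

theorem mord_ord {v q : ℕ} {K : Type} [Field K] [Algebra ℂ K] {P : Place ℂ K}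
    {ℓ : Fin q → Fin (v + 1) → ℂ} {b : Fin (v + 1) → K} {c : ℤ} {e : Fin q → ℕ}
    (h : OrdData P ℓ b c e) : MOrd P (fun k j => algebraMap ℂ K (ℓ k j)) b c e := by
  refine ⟨fun j => ?_, h.2.1, h.2.2⟩
  by_cases hj : b j = 0
  · exact Or.inl hj
  · exact Or.inr (h.1 j hj)

/-- **Abundance for pairs over mixed towers over subvarieties of projective space.** -/
theorem small_ab {v q d : ℕ} (hd : 0 < d) {ℓ : Fin q → Fin (v + 1) → ℂ}
    (hI : Independent d ℓ) (hg : GeneralPosition ℓ) (hq : v + 1 ≤ q) {K : Type} [Field K]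
    [Algebra ℂ K] {N l c : ℕ} {E : Fin (l + 1) → IntermediateField ℂ K} {D : Fin (l + 1) → ℕ}
    {e : Fin l → ℕ} {r s : Fin c → ℕ} {y : Fin (N + 1) → K} {Δ Γ A : Place ℂ K → ℚ}
    (hy : Pool.Agent.X180.OP.IsPair y (D (Fin.last l) + ∑ j, r j) Δ) (hΓ : Effective y Γ)
    (hA : Effective y A)
    (hps : Pool.Agent.X180.OP.PseudoEffective y (D (Fin.last l) + ∑ j, r j) (Δ - Γ) A)
    {b : Fin (v + 1) → K} (hl : ∀ i, lf (ℓ i) b ≠ 0) (hb : ∃ j, b j ≠ 0) (hE0 : E 0 = RF ℂ b)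
    {wt : Fin q → ℚ} (hwt0 : ∀ i, 0 ≤ wt i)
    (hlt : (((D 0 + 1) * (v - D 0 + d).choose (v - D 0) : ℕ) : ℚ) ≤ ∑ i, wt i) (k0 : Fin q)
    (hm : ∀ P ∈ Pool.Agent.X180.OP.Relevant y (D (Fin.last l) + ∑ j, r j) Δ Γ A,
      ∀ (a : ℤ) (μ : Fin q → ℕ), OrdData P ℓ b a μ → μ ≠ 0 →
      ((min (Finset.univ.filter fun i => μ i ≠ 0).card ((v - D 0 + d).choose (v - D 0)) : ℕ) : ℚ) ≤
        ((v - D 0 + d).choose (v - D 0) : ℕ) * Δ P + ∑ i, (1 - wt i) * μ i ∧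
      ((((D 0 + 1) * (v - D 0 + d).choose (v - D 0) : ℕ) : ℚ) = ∑ i, wt i → μ k0 ≠ 0 →
        ((min (Finset.univ.filter fun i => μ i ≠ 0).card ((v - D 0 + d).choose (v - D 0)) : ℕ)
          : ℚ) < ((v - D 0 + d).choose (v - D 0) : ℕ) * Δ P + ∑ i, (1 - wt i) * μ i))
    (hT : Pool.Agent.X180.OP.IsMixedTower
      (Pool.Agent.X180.OP.Relevant y (D (Fin.last l) + ∑ j, r j) Δ Γ A)
      (fun P => (Δ P : ℝ)) E D e e)
    {w : ∀ j, Fin (s j) → ℚ}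
    (hF : Pool.Agent.X180.OP.Fibres y (D (Fin.last l) + ∑ j, r j) Δ
      (Pool.Agent.X180.OP.Relevant y (D (Fin.last l) + ∑ j, r j) Δ Γ A)
      (E (Fin.last l)) r s w) :
    Pool.Agent.X180.OP.Abundance y (D (Fin.last l) + ∑ j, r j) Δ Γ (D (Fin.last l)) r s w := by
  have hn' : D (Fin.last l) + ∑ j, r j = D 0 + (∑ i, e i + ∑ j, r j) := by
    rw [Pool.Agent.X180.TP.dims fun i => (hT.2 i).2.1, add_assoc]
  have htr : Algebra.trdeg ℂ (RF ℂ b) = (D 0 : ℕ) := by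
    rw [← hE0]
    exact hT.1 0
  refine Pool.Agent.X180.OP.ab_mix hy hΓ hA hps hT (fun _ => rfl) hF fun lam' h0 => ?_
  rw [hE0] at h0
  exact (small_pair hd hI hg hq hy.1 hl hb htr (by rw [← hn']; exact hy.2.1) (fun P hP => hP.1)
    (fun P hP => hy.2.2.1 P hP.1) hwt0 hlt (fun P hP c e ho he => (hm P hP c e ho he).1) h0).2 k0
    fun heq P hP c e ho he => (hm P hP c e ho (fun h => he (by rw [h]; rfl))).2 heq he

/-- **Nonvanishing for pairs over mixed towers over subvarieties of projective space.** -/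
theorem small_nv {v q d : ℕ} (hd : 0 < d) {ℓ : Fin q → Fin (v + 1) → ℂ}
    (hI : Independent d ℓ) (hg : GeneralPosition ℓ) (hq : v + 1 ≤ q) {K : Type} [Field K]
    [Algebra ℂ K] {N l c : ℕ} {E : Fin (l + 1) → IntermediateField ℂ K} {D : Fin (l + 1) → ℕ}
    {e lam : Fin l → ℕ} {r s : Fin c → ℕ} {y : Fin (N + 1) → K} {Δ : Place ℂ K → ℚ}
    (hy : Pool.Agent.X180.OP.IsPair y (D (Fin.last l) + ∑ j, r j) Δ)
    {b : Fin (v + 1) → K} (hl : ∀ i, lf (ℓ i) b ≠ 0) (hb : ∃ j, b j ≠ 0) (hE0 : E 0 = RF ℂ b)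
    {wt : Fin q → ℚ} (hwt0 : ∀ i, 0 ≤ wt i)
    (hlt : (((D 0 + 1) * (v - D 0 + d).choose (v - D 0) : ℕ) : ℚ) ≤ ∑ i, wt i)
    (hm : ∀ P, IsPrimeDivisor y P → ∀ (a : ℤ) (μ : Fin q → ℕ), OrdData P ℓ b a μ → μ ≠ 0 →
      ((min (Finset.univ.filter fun i => μ i ≠ 0).card ((v - D 0 + d).choose (v - D 0)) : ℕ) : ℚ) ≤
        ((v - D 0 + d).choose (v - D 0) : ℕ) * Δ P + ∑ i, (1 - wt i) * μ i)
    (hT : Pool.Agent.X180.OP.IsMixedTower {P | IsPrimeDivisor y P}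
      (fun P => (Δ P : ℝ)) E D e lam)
    {w : ∀ j, Fin (s j) → ℚ}
    (hF : Pool.Agent.X180.OP.Fibres y (D (Fin.last l) + ∑ j, r j) Δ {P | IsPrimeDivisor y P}
      (E (Fin.last l)) r s w) :
    Pool.Agent.X180.OP.Nonvanishing y (D (Fin.last l) + ∑ j, r j) Δ
      (∑ i, lam i + Pool.Agent.X180.OP.big r s w) r s w ∧
    (∀ k0 : Fin q, ((((D 0 + 1) * (v - D 0 + d).choose (v - D 0) : ℕ) : ℚ) = ∑ i, wt i →
      ∀ P, IsPrimeDivisor y P → ∀ (a : ℤ) (μ : Fin q → ℕ), OrdData P ℓ b a μ → μ k0 ≠ 0 →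
      ((min (Finset.univ.filter fun i => μ i ≠ 0).card ((v - D 0 + d).choose (v - D 0)) : ℕ) : ℚ) <
        ((v - D 0 + d).choose (v - D 0) : ℕ) * Δ P + ∑ i, (1 - wt i) * μ i) →
      Pool.Agent.X180.OP.Nonvanishing y (D (Fin.last l) + ∑ j, r j) Δ
        (D 0 + ∑ i, lam i + Pool.Agent.X180.OP.big r s w) r s w) := by
  have hn' : D (Fin.last l) + ∑ j, r j = D 0 + (∑ i, e i + ∑ j, r j) := by
    rw [Pool.Agent.X180.TP.dims fun i => (hT.2 i).2.1, add_assoc]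
  have htr : Algebra.trdeg ℂ (RF ℂ b) = (D 0 : ℕ) := by
    rw [← hE0]
    exact hT.1 0
  have h2 := fun (lam' : ℕ) (h0 : HasForms (D 0 + (∑ i, e i + ∑ j, r j))
      {P | IsPrimeDivisor y P} (hor (RF ℂ b) fun P => (Δ P : ℝ)) (RF ℂ b)
      (∑ i, e i + ∑ j, r j) lam') =>
    small_pair hd hI hg hq hy.1 hl hb htr (by rw [← hn']; exact hy.2.1) (fun P hP => hP)
    (fun P hP => hy.2.2.1 P hP) hwt0 hlt (fun P hP c e ho he => hm P hP c e ho he) h0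
  refine ⟨?_, fun k0 hstr => ?_⟩
  · have h1 := Pool.Agent.X180.OP.non_mix (k := 0) hy hT hF fun lam' h0 => by
      rw [hE0] at h0
      rw [zero_add]
      exact (h2 lam' h0).1
    rwa [zero_add] at h1
  · refine Pool.Agent.X180.OP.non_mix hy hT hF fun lam' h0 => ?_
    rw [hE0] at h0
    exact (h2 lam' h0).2 k0 hstr

end Pool.Agent.X325.OB
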