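import Pool.Agent.X325.OB.PairBase
import Pool.Agent.Y191.LcLow

/-!
# Products of projective spaces with log canonical arrangements as bases of towers of pairs
-/

set_option autoImplicit false
set_option linter.overlappingInstances false
set_option linter.unusedSectionVars false

open FF Module Pool.Agent.W602.Cov Pool.Agent.W602.GT
open Pool.Agent.Y172 Pool.Agent.Y191
open Pool.Agent.X180.Tow (HasForms)
open Pool.Agent.X180.Iso (hor ver)

namespace Pool.Agent.X325.OB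

section vec

variable {n q : ℕ}

/-- the linear form with the coefficients `a` -/
noncomputable def vf : (Fin (n + 1) → ℂ) ≃ₗ[ℂ] Form n :=
  (Pi.basisFun ℂ (Fin (n + 1))).constr ℂ

theorem vf_single (a : Fin (n + 1) → ℂ) (j : Fin (n + 1)) : (vf a) (Pi.single j 1) = a j := by
  have h := (Pi.basisFun ℂ (Fin (n + 1))).constr_basis ℂ a j
  rw [Pi.basisFun_apply] at h
  exact h

theorem form_vf {K : Type} [Field K] [Algebra ℂ K] (a : Fin (n + 1) → ℂ) (x : Fin (n + 1) → K) :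
    Pool.Agent.X180.OP.form (vf a) x = ∑ j, algebraMap ℂ K (a j) * x j := by
  unfold Pool.Agent.X180.OP.form
  exact Finset.sum_congr rfl fun j _ => by rw [vf_single]

theorem li_iff (ℓ : Fin q → Fin (n + 1) → ℂ) (b : Fin (n + 1) → Fin q) :
    LinearIndependent ℂ (fun a => vf (ℓ (b a))) ↔
      (Matrix.of fun k a => ℓ (b k) a).det ≠ 0 := by
  have h1 : LinearIndependent ℂ (fun a => vf (ℓ (b a))) ↔
      LinearIndependent ℂ (fun a => ℓ (b a)) :=
    (vf (n := n)).toLinearMap.linearIndependent_iff (LinearEquiv.ker _)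
  rw [h1]
  rw [← isUnit_iff_ne_zero, ← Matrix.isUnit_iff_isUnit_det,
    ← Matrix.linearIndependent_rows_iff_isUnit]
  rfl

theorem fiber_sum {α : Type} [Fintype α] [DecidableEq α] {M : ℕ} (J : Fin M → α) (f : α → ℚ) :
    ∑ B, ((Finset.univ.filter fun t => J t = B).card : ℚ) * f B = ∑ t, f (J t) := by
  rw [← Finset.sum_fiberwise Finset.univ J fun t => f (J t)]
  refine Finset.sum_congr rfl fun B _ => ?_
  rw [Finset.sum_congr rfl (g := fun _ => f B) fun t ht => by rw [(Finset.mem_filter.1 ht).2],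
    Finset.sum_const, nsmul_eq_mul]

theorem common_den (w : Fin q → ℚ) (hw0 : ∀ k, 0 ≤ w k) :
    ∃ M : ℕ, 0 < M ∧ ∃ s : Fin q → ℕ, ∀ k, (s k : ℚ) = M * w k := by
  classical
  refine ⟨∏ k, (w k).den, Finset.prod_pos fun k _ => (w k).pos, ?_⟩
  have h1 : ∀ k, ∃ t : ℕ, (t : ℚ) = ((∏ k, (w k).den : ℕ) : ℚ) * w k := by
    intro k
    obtain ⟨c, hc⟩ := Finset.dvd_prod_of_mem (fun k => (w k).den) (Finset.mem_univ k)
    refine ⟨(w k).num.toNat * c, ?_⟩
    rw [hc]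
    push_cast
    have h2 : (((w k).num.toNat : ℤ) : ℚ) = ((w k).num : ℚ) := by
      rw [Int.toNat_of_nonneg (Rat.num_nonneg.2 (hw0 k))]
    have h3 : (((w k).num.toNat : ℕ) : ℚ) = ((w k).num : ℚ) := by exact_mod_cast h2
    rw [h3]
    have h4 : (w k) * (w k).den = (w k).num := Rat.mul_den_eq_num (w k)
    rw [← h4]
    ring
  choose s hs using h1
  exact ⟨s, hs⟩

/-- **Log canonical weights with sum `n + 1` are convex combinations of bases.** -/
theorem basePt {ℓ : Fin q → Fin (n + 1) → ℂ} {w : Fin q → ℚ} (hw0 : ∀ k, 0 ≤ w k)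
    (hws : ∑ k, w k = (n : ℚ) + 1) (hlc : ∀ S : Finset (Fin q),
      ∑ k ∈ S, w k ≤ finrank ℂ ↥(Submodule.span ℂ (ℓ '' (S : Set (Fin q))))) :
    Pool.Agent.TH756.PN.BasePt (fun k => vf (ℓ k)) w := by
  classical
  obtain ⟨M, hM, s, hs⟩ := common_den w hw0
  have hMq : (0 : ℚ) < M := by exact_mod_cast hM
  have hsum : ∑ k, s k = (n + 1) * M := by
    have h1 : ((∑ k, s k : ℕ) : ℚ) = (((n + 1) * M : ℕ) : ℚ) := by
      push_cast
      rw [Finset.sum_congr rfl fun k _ => hs k, ← Finset.mul_sum, hws]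
      ring
    exact_mod_cast h1
  obtain ⟨I, hI, hprod⟩ := exists_bases hM ℓ hsum (fun S => by
    have h1 : ((∑ k ∈ S, s k : ℕ) : ℚ) ≤
        ((M * finrank ℂ ↥(Submodule.span ℂ (ℓ '' (S : Set (Fin q)))) : ℕ) : ℚ) := by
      push_cast
      rw [Finset.sum_congr rfl fun k _ => hs k, ← Finset.mul_sum]
      exact mul_le_mul_of_nonneg_left (hlc S) hMq.le
    exact_mod_cast h1)
  let J : Fin M → Pool.Agent.TH152.AC.Bases (fun k => vf (ℓ k)) := fun t =>
    ⟨I t, (li_iff ℓ (I t)).2 (hI t)⟩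
  refine ⟨fun B => (Finset.univ.filter fun t => J t = B).card, ?_, fun k => ?_⟩
  · have h1 := fiber_sum J fun _ => 1
    simp only [mul_one, Finset.sum_const, Finset.card_univ, Fintype.card_fin, nsmul_eq_mul] at h1
    have h2 : ((∑ B, (Finset.univ.filter fun t => J t = B).card : ℕ) : ℚ) = (M : ℚ) := by
      push_cast
      exact h1
    have h3 : (∑ B, (Finset.univ.filter fun t => J t = B).card) = M := by exact_mod_cast h2
    rw [h3]
    exact hM
  · have h1 := fiber_sum J fun _ => 1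
    simp only [mul_one, Finset.sum_const, Finset.card_univ, Fintype.card_fin, nsmul_eq_mul] at h1
    rw [h1, ← hs k, fiber_sum J fun B => ((Finset.univ.filter fun a => B.1 a = k).card : ℚ)]
    have h2 := hprod (Multiplicative ℕ) fun i => Multiplicative.ofAdd (if i = k then 1 else 0)
    have h3 := congrArg Multiplicative.toAdd h2
    simp only [toAdd_prod, toAdd_ofAdd, toAdd_pow, smul_eq_mul, mul_ite, mul_one, mul_zero,
      Finset.sum_ite_eq', Finset.mem_univ, if_true] at h3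
    rw [← h3]
    push_cast
    refine Finset.sum_congr rfl fun t _ => ?_
    change _ = ((Finset.univ.filter fun a => I t a = k).card : ℚ)
    rw [Finset.card_filter]
    push_cast
    rfl

end vec

section maxima

variable {m : ℕ} {n q : Fin m → ℕ}

theorem mx_eq (ℓ : ∀ i, Fin (q i) → Fin (n i + 1) → ℂ) (i : Fin m) (v : Fin (q i) → ℕ) :
    mx ℓ i v = Finset.univ.sup fun B : Pool.Agent.TH152.AC.Bases (fun k => vf (ℓ i k)) =>
      ∑ a, v (B.1 a) := by
  classical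
  unfold mx
  apply le_antisymm
  · refine Finset.sup_le fun I hI => ?_
    rw [Finset.mem_filter] at hI
    exact Finset.le_sup (f := fun B : Pool.Agent.TH152.AC.Bases (fun k => vf (ℓ i k)) =>
      ∑ a, v (B.1 a)) (Finset.mem_univ ⟨I, (li_iff (ℓ i) I).2 hI.2⟩)
  · refine Finset.sup_le fun B _ => ?_
    refine Finset.le_sup (f := fun I : Fin (n i + 1) → Fin (q i) => ∑ k, v (I k)) ?_
    rw [Finset.mem_filter]
    exact ⟨Finset.mem_univ _, (li_iff (ℓ i) B.1).1 B.2⟩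

theorem disc_eq (ℓ : ∀ i, Fin (q i) → Fin (n i + 1) → ℂ) (i : Fin m) (w : Fin (q i) → ℚ)
    (v : Fin (q i) → ℕ) :
    Pool.Agent.TH756.PN.disc (fun k => vf (ℓ i k)) w v = (mx ℓ i v : ℚ) - ∑ k, w k * v k := by
  unfold Pool.Agent.TH756.PN.disc
  rw [mx_eq]

end maxima

section orders

open Pool.Agent.W603.LV in
theorem mord_of {n q : ℕ} {K : Type} [Field K] [Algebra ℂ K] {P : Place ℂ K}
    {ℓ : Fin q → Fin (n + 1) → ℂ} {x : Fin (n + 1) → K} {a : ℤ} {v : Fin q → ℕ}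
    (h1 : ∀ φ : Form n, Pool.Agent.X180.OP.form φ x = 0 ∨ a ≤ P.ord (Pool.Agent.X180.OP.form φ x))
    (h2 : ∃ φ : Form n, Pool.Agent.X180.OP.form φ x ≠ 0 ∧
      P.ord (Pool.Agent.X180.OP.form φ x) = a)
    (h3 : ∀ k, P.ord (Pool.Agent.X180.OP.form (vf (ℓ k)) x) = a + v k) :
    MOrd P (fun k j => algebraMap ℂ K (ℓ k j)) x a v := by
  have hc : ∀ j, Pool.Agent.X180.OP.form (vf (Pi.single j 1)) x = x j := by
    intro j
    rw [form_vf, Finset.sum_eq_single j]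
    · simp
    · intro b _ hb
      rw [Pi.single_eq_of_ne hb]
      simp
    · simp
  refine ⟨fun k => ?_, ?_, fun i => ?_⟩
  · have h4 := h1 (vf (Pi.single k 1))
    rw [hc] at h4
    exact h4
  · by_contra hcon
    push Not at hcon
    obtain ⟨φ, hφ0, hφ⟩ := h2
    have h5 : ∀ j, Ge P (a + 1) (x j) := by
      intro j
      by_cases hx : x j = 0
      · exact Or.inl hx
      · right
        have h6 := h1 (vf (Pi.single j 1))
        rw [hc] at h6
        have h7 := h6.resolve_left hx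
        have h8 := hcon j hx
        omega
    have h6 : Ge P (a + 1) (Pool.Agent.X180.OP.form φ x) := by
      unfold Pool.Agent.X180.OP.form
      refine Ge.sum _ _ fun j _ => ?_
      simpa using (Ge.const (P := P) (φ (Pi.single j 1))).mul (h5 j)
    rcases h6 with h6 | h6
    · exact hφ0 h6
    · omega
  · rw [← form_vf]
    exact h3 i

end orders

/-- **The base, for pairs: log canonical arrangements.** -/
theorem lc_base {m s lam N : ℕ} {n q : Fin m → ℕ} {K : Type} [Field K] [Algebra ℂ K]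
    {y : Fin (N + 1) → K} (hy : NormalModel y) {S : Set (Place ℂ K)}
    (hS : ∀ P ∈ S, IsPrimeDivisor y P) {Δ : Place ℂ K → ℚ} (hΔ : ∀ P ∈ S, 0 ≤ Δ P)
    {ℓ : ∀ i, Fin (q i) → Fin (n i + 1) → ℂ} {wt : ∀ i, Fin (q i) → ℚ}
    (hw0 : ∀ i k, 0 ≤ wt i k) (hws : ∀ i, (n i + 1 : ℚ) ≤ ∑ k, wt i k)
    (hlc : LcArr (⊥ : IntermediateField ℂ ℂ) ℓ wt) {x : ∀ i, Fin (n i + 1) → K}
    (hx0 : ∀ i, x i 0 ≠ 0)
    (hind : AlgebraicIndependent ℂ (Pool.Agent.X180.OP.affine x))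
    (hK : Algebra.trdeg ℂ K = (∑ i, n i + s : ℕ))
    (I : Finset (Fin m)) (k0 : ∀ i, Fin (q i))
    (hbase : ∀ P ∈ S, ∀ (a : Fin m → ℤ) (v : ∀ i, Fin (q i) → ℕ),
      (∀ i, MOrd P (fun k j => algebraMap ℂ K (ℓ i k j)) (x i) (a i) (v i)) → (∃ i, v i ≠ 0) →
      1 - Δ P ≤ ∑ i, ((mx ℓ i (v i) : ℚ) - ∑ k, wt i k * v i k) ∧
        ((∃ i ∈ I, ∑ k, wt i k = (n i + 1 : ℚ) ∧ v i (k0 i) ≠ 0) →
          1 - Δ P < ∑ i, ((mx ℓ i (v i) : ℚ) - ∑ k, wt i k * v i k)))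
    (hθ : HasForms (∑ i, n i + s) S
      (hor (Pool.Agent.X180.OP.BaseField x) fun P => (Δ P : ℝ)) (Pool.Agent.X180.OP.BaseField x)
      s lam) :
    KodairaGe (∑ i, n i + s) S (fun P => (Δ P : ℝ)) (∑ i ∈ I, n i + lam) := by
  classical
  have hpos : ∀ i, (0 : ℚ) < ∑ k, wt i k := fun i => lt_of_lt_of_le (by positivity) (hws i)
  obtain ⟨c, hc⟩ : ∃ c : Fin m → ℚ, ∀ i, c i = (n i + 1) / ∑ k, wt i k := ⟨_, fun _ => rfl⟩
  have hc0 : ∀ i, 0 < c i := fun i => by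
    rw [hc]
    exact div_pos (by positivity) (hpos i)
  have hc1 : ∀ i, c i ≤ 1 := fun i => by
    rw [hc]
    exact (div_le_one (hpos i)).2 (hws i)
  have hcs : ∀ i, ∑ k, c i * wt i k = (n i : ℚ) + 1 := fun i => by
    rw [← Finset.mul_sum, hc, div_mul_cancel₀ _ (hpos i).ne']
  have hle : ∀ i k, c i * wt i k ≤ wt i k := fun i k => by
    have := mul_le_mul_of_nonneg_right (hc1 i) (hw0 i k)
    rwa [one_mul] at this
  have hbp : ∀ i, Pool.Agent.TH756.PN.BasePt (fun k => vf (ℓ i k)) fun k => c i * wt i k := by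
    intro i
    refine basePt (fun k => mul_nonneg (hc0 i).le (hw0 i k)) (hcs i) fun S' => ?_
    have h1 : finrank ℂ ↥(Submodule.span ℂ (ℓ i '' (S' : Set (Fin (q i))))) = rk ℓ i S' := rfl
    rw [h1]
    by_cases hS' : rk ℓ i S' ≤ n i
    · exact (Finset.sum_le_sum fun k _ => hle i k).trans (hlc.2 i S' hS')
    · have h2 : rk ℓ i S' = n i + 1 := le_antisymm (rk_le ℓ i S') (by omega)
      rw [h2]
      push_cast
      rw [← hcs i]
      exact Finset.sum_le_sum_of_subset_of_nonneg (Finset.subset_univ _)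
        fun k _ _ => mul_nonneg (hc0 i).le (hw0 i k)
  have hk1 : ∀ i, ∃ k, 0 < wt i k := by
    intro i
    by_contra hcon
    push Not at hcon
    have h1 := hpos i
    rw [Finset.sum_eq_zero fun k _ => le_antisymm (hcon k) (hw0 i k)] at h1
    exact lt_irrefl _ h1
  choose k1 hk1 using hk1
  have hdisc : ∀ i (v : Fin (q i) → ℕ), Pool.Agent.TH756.PN.disc (fun k => vf (ℓ i k))
      (fun k => c i * wt i k) v = ((mx ℓ i v : ℚ) - ∑ k, wt i k * v k) +
        (1 - c i) * ∑ k, wt i k * v k := by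
    intro i v
    rw [disc_eq ℓ i]
    have h1 : ∑ k, c i * wt i k * (v k : ℚ) = c i * ∑ k, wt i k * v k := by
      rw [Finset.mul_sum]
      exact Finset.sum_congr rfl fun k _ => by ring
    rw [h1]
    ring
  have hnn : ∀ i (v : Fin (q i) → ℕ), 0 ≤ (1 - c i) * ∑ k, wt i k * (v k : ℚ) := by
    intro i v
    refine mul_nonneg (sub_nonneg.2 (hc1 i)) (Finset.sum_nonneg fun k _ => ?_)
    exact mul_nonneg (hw0 i k) (Nat.cast_nonneg _)
  refine pair_base (ℓ := fun i k => vf (ℓ i k)) hy hS hΔ (fun i k h => ?_)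
    (fun i => Pool.Agent.TH756.PN.disc (fun k => vf (ℓ i k)) fun k => c i * wt i k)
    (fun i => (hbp i).wtd) hx0 hind hK I
    (fun i => if ∑ k, wt i k = (n i + 1 : ℚ) then k0 i else k1 i)
    (fun P hP a v h1 h2 h3 h4 => ?_) hθ
  · obtain ⟨⟨j, hj⟩, -⟩ := hlc.1 i k
    exact hj (congrFun (vf.map_eq_zero_iff.1 h) j)
  · have h5 : ∀ i, MOrd P (fun k j => algebraMap ℂ K (ℓ i k j)) (x i) (a i) (v i) := fun i =>
      mord_of (h1 i) (h2 i) (h3 i)
    obtain ⟨h6, h7⟩ := hbase P hP a v h5 h4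
    have h8 : ∑ i, ((mx ℓ i (v i) : ℚ) - ∑ k, wt i k * v i k) ≤
        ∑ i, Pool.Agent.TH756.PN.disc (fun k => vf (ℓ i k)) (fun k => c i * wt i k) (v i) := by
      refine Finset.sum_le_sum fun i _ => ?_
      rw [hdisc i]
      linarith [hnn i (v i)]
    refine ⟨h6.trans h8, ?_⟩
    rintro ⟨i, hi, hvi⟩
    by_cases hsi : ∑ k, wt i k = (n i + 1 : ℚ)
    · rw [if_pos hsi] at hvi
      exact (h7 ⟨i, hi, hsi, hvi⟩).trans_le h8
    · rw [if_neg hsi] at hvi
      refine h6.trans_lt (Finset.sum_lt_sum (fun i _ => ?_) ⟨i, Finset.mem_univ _, ?_⟩)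
      · rw [hdisc i]
        linarith [hnn i (v i)]
      · rw [hdisc i]
        have h9 : c i < 1 := by
          rw [hc, div_lt_one (hpos i)]
          exact lt_of_le_of_ne (hws i) fun h => hsi h.symm
        have h10 : 0 < ∑ k, wt i k * (v i k : ℚ) := by
          refine Finset.sum_pos' (fun k _ => mul_nonneg (hw0 i k) (Nat.cast_nonneg _))
            ⟨k1 i, Finset.mem_univ _, ?_⟩
          exact mul_pos (hk1 i) (by exact_mod_cast Nat.pos_of_ne_zero hvi)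
        have h11 : 0 < (1 - c i) * ∑ k, wt i k * (v i k : ℚ) := mul_pos (sub_pos.2 h9) h10
        linarith

/-- **Abundance for pairs over mixed towers over log canonical arrangements.** -/
theorem mixed_ab {m : ℕ} {n q : Fin m → ℕ} {ℓ : ∀ i, Fin (q i) → Fin (n i + 1) → ℂ}
    {wt : ∀ i, Fin (q i) → ℚ} (hw0 : ∀ i k, 0 ≤ wt i k) (hws : ∀ i, (n i + 1 : ℚ) ≤ ∑ k, wt i k)
    (hlc : LcArr (⊥ : IntermediateField ℂ ℂ) ℓ wt) {K : Type} [Field K] [Algebra ℂ K]
    {N l c : ℕ} {E : Fin (l + 1) → IntermediateField ℂ K} {D : Fin (l + 1) → ℕ} {e : Fin l → ℕ}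
    {r s : Fin c → ℕ} {y : Fin (N + 1) → K} {Δ Γ A : Place ℂ K → ℚ}
    (hy : Pool.Agent.X180.OP.IsPair y (D (Fin.last l) + ∑ j, r j) Δ) (hΓ : Effective y Γ)
    (hA : Effective y A)
    (hps : Pool.Agent.X180.OP.PseudoEffective y (D (Fin.last l) + ∑ j, r j) (Δ - Γ) A)
    {x : ∀ i, Fin (n i + 1) → K}
    (hx0 : ∀ i, x i 0 ≠ 0) (hind : AlgebraicIndependent ℂ (Pool.Agent.X180.OP.affine x))
    (hE0 : E 0 = Pool.Agent.X180.OP.BaseField x) (k0 : ∀ i, Fin (q i))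
    (hm : ∀ P ∈ Pool.Agent.X180.OP.Relevant y (D (Fin.last l) + ∑ j, r j) Δ Γ A,
      ∀ (a : Fin m → ℤ) (v : ∀ i, Fin (q i) → ℕ),
      (∀ i, MOrd P (fun k j => algebraMap ℂ K (ℓ i k j)) (x i) (a i) (v i)) → (∃ i, v i ≠ 0) →
      1 - Δ P ≤ ∑ i, ((mx ℓ i (v i) : ℚ) - ∑ k, wt i k * v i k) ∧
        ((∃ i, ∑ k, wt i k = (n i + 1 : ℚ) ∧ v i (k0 i) ≠ 0) →
          1 - Δ P < ∑ i, ((mx ℓ i (v i) : ℚ) - ∑ k, wt i k * v i k)))
    (hT : Pool.Agent.X180.OP.IsMixedTower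
      (Pool.Agent.X180.OP.Relevant y (D (Fin.last l) + ∑ j, r j) Δ Γ A)
      (fun P => (Δ P : ℝ)) E D e e)
    {w : ∀ j, Fin (s j) → ℚ}
    (hF : Pool.Agent.X180.OP.Fibres y (D (Fin.last l) + ∑ j, r j) Δ
      (Pool.Agent.X180.OP.Relevant y (D (Fin.last l) + ∑ j, r j) Δ Γ A)
      (E (Fin.last l)) r s w) :
    Pool.Agent.X180.OP.Abundance y (D (Fin.last l) + ∑ j, r j) Δ Γ (D (Fin.last l)) r s w := by
  have hn' : D (Fin.last l) + ∑ j, r j = D 0 + (∑ i, e i + ∑ j, r j) := by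
    rw [Pool.Agent.X180.TP.dims fun i => (hT.2 i).2.1, add_assoc]
  have htr : D 0 = ∑ i, n i := by
    have h3 := hT.1 0
    rw [hE0, Pool.Agent.X180.OP.trdeg_base hind] at h3
    exact_mod_cast h3.symm
  refine Pool.Agent.X180.OP.ab_mix hy hΓ hA hps hT (fun _ => rfl) hF fun lam' h0 => ?_
  rw [hE0, htr] at h0
  rw [htr]
  exact lc_base hy.1 (fun P hP => hP.1) (fun P hP => hy.2.2.1 P hP.1) hw0 hws hlc hx0 hind
    (by rw [← htr, ← hn']; exact hy.2.1) Finset.univ k0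
    (fun P hP a v h1 h2 => by
      obtain ⟨h5, h6⟩ := hm P hP a v h1 h2
      exact ⟨h5, fun ⟨i, _, hi⟩ => h6 ⟨i, hi⟩⟩) h0

/-- **Nonvanishing for pairs over mixed towers over log canonical arrangements.** -/
theorem mixed_nv {m : ℕ} {n q : Fin m → ℕ} {ℓ : ∀ i, Fin (q i) → Fin (n i + 1) → ℂ}
    {wt : ∀ i, Fin (q i) → ℚ} (hw0 : ∀ i k, 0 ≤ wt i k) (hws : ∀ i, (n i + 1 : ℚ) ≤ ∑ k, wt i k)
    (hlc : LcArr (⊥ : IntermediateField ℂ ℂ) ℓ wt) {K : Type} [Field K] [Algebra ℂ K]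
    {N l c : ℕ} {E : Fin (l + 1) → IntermediateField ℂ K} {D : Fin (l + 1) → ℕ}
    {e lam : Fin l → ℕ}
    {r s : Fin c → ℕ} {y : Fin (N + 1) → K} {Δ : Place ℂ K → ℚ}
    (hy : Pool.Agent.X180.OP.IsPair y (D (Fin.last l) + ∑ j, r j) Δ)
    {x : ∀ i, Fin (n i + 1) → K}
    (hx0 : ∀ i, x i 0 ≠ 0) (hind : AlgebraicIndependent ℂ (Pool.Agent.X180.OP.affine x))
    (hE0 : E 0 = Pool.Agent.X180.OP.BaseField x) (I : Finset (Fin m)) (k0 : ∀ i, Fin (q i))
    (hm : ∀ P, IsPrimeDivisor y P →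
      ∀ (a : Fin m → ℤ) (v : ∀ i, Fin (q i) → ℕ),
      (∀ i, MOrd P (fun k j => algebraMap ℂ K (ℓ i k j)) (x i) (a i) (v i)) → (∃ i, v i ≠ 0) →
      1 - Δ P ≤ ∑ i, ((mx ℓ i (v i) : ℚ) - ∑ k, wt i k * v i k) ∧
        ((∃ i ∈ I, ∑ k, wt i k = (n i + 1 : ℚ) ∧ v i (k0 i) ≠ 0) →
          1 - Δ P < ∑ i, ((mx ℓ i (v i) : ℚ) - ∑ k, wt i k * v i k)))
    (hT : Pool.Agent.X180.OP.IsMixedTower {P | IsPrimeDivisor y P}
      (fun P => (Δ P : ℝ)) E D e lam)
    {w : ∀ j, Fin (s j) → ℚ}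
    (hF : Pool.Agent.X180.OP.Fibres y (D (Fin.last l) + ∑ j, r j) Δ {P | IsPrimeDivisor y P}
      (E (Fin.last l)) r s w) :
    Pool.Agent.X180.OP.Nonvanishing y (D (Fin.last l) + ∑ j, r j) Δ
      (∑ i ∈ I, n i + ∑ i, lam i + Pool.Agent.X180.OP.big r s w) r s w := by
  have hn' : D (Fin.last l) + ∑ j, r j = D 0 + (∑ i, e i + ∑ j, r j) := by
    rw [Pool.Agent.X180.TP.dims fun i => (hT.2 i).2.1, add_assoc]
  have htr : D 0 = ∑ i, n i := by
    have h3 := hT.1 0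
    rw [hE0, Pool.Agent.X180.OP.trdeg_base hind] at h3
    exact_mod_cast h3.symm
  refine Pool.Agent.X180.OP.non_mix hy hT hF fun lam' h0 => ?_
  rw [hE0, htr] at h0
  rw [htr]
  exact lc_base hy.1 (fun P hP => hP) (fun P hP => hy.2.2.1 P hP) hw0 hws hlc hx0 hind
    (by rw [← htr, ← hn']; exact hy.2.1) I k0
    (fun P hP a v h1 h2 => hm P hP a v h1 h2) h0

end Pool.Agent.X325.OB
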