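import Pool.Agent.TH756.PN.TenM
import Pool.Agent.X180.OT.MultiNon
import Pool.Agent.X180.OT.Sys

/-!
# Orbifold towers over products of projective spaces with log Calabi-Yau arrangements
-/

set_option autoImplicit false
set_option linter.overlappingInstances false
set_option linter.unusedSectionVars false

open FF Module Pool.Agent.W602.Cov Pool.Agent.W602.GT Pool.Agent.TH152.AC
open Pool.Agent.Y172 Pool.Agent.Y191
open Pool.Agent.X180.TP (affine BaseField IsCanonicalVariety Fibres big Nonvanishing Abundance dims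
  exists_idx abundance_of nonvanishing_of)
open Pool.Agent.X180.Tow (HasForms hor_nonneg)
open Pool.Agent.X180.Iso (hor)
open Pool.Agent.X180.OT (IsOrbifoldTower orb_forms hor_zero)

namespace Pool.Agent.X325.OB

/-- **The base.** -/
theorem base_kod {m s lam N : ℕ} {n q : Fin m → ℕ} {K : Type} [Field K] [Algebra ℂ K]
    {y : Fin (N + 1) → K} (hy : NormalModel y) {ℓ : ∀ i, Fin (q i) → Form (n i)}
    (hℓ : ∀ i k, ℓ i k ≠ 0) (g : ∀ i, (Fin (q i) → ℕ) → ℚ)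
    (hg : ∀ i, Pool.Agent.TH756.PN.Wtd (ℓ i) (g i)) {x : ∀ i, Fin (n i + 1) → K}
    (hx0 : ∀ i, x i 0 ≠ 0)
    (hind : AlgebraicIndependent ℂ (affine x)) (hK : Algebra.trdeg ℂ K = (∑ i, n i + s : ℕ))
    (I : Finset (Fin m)) (k0 : ∀ i, Fin (q i))
    (hbase : ∀ P, IsPrimeDivisor y P → ∀ (a : Fin m → ℤ) (v : ∀ i, Fin (q i) → ℕ),
      (∀ i (φ : Form (n i)), Pool.Agent.X180.TP.form φ (x i) = 0 ∨
        a i ≤ P.ord (Pool.Agent.X180.TP.form φ (x i))) →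
      (∀ i, ∃ φ : Form (n i), Pool.Agent.X180.TP.form φ (x i) ≠ 0 ∧
        P.ord (Pool.Agent.X180.TP.form φ (x i)) = a i) →
      (∀ i k, P.ord (Pool.Agent.X180.TP.form (ℓ i k) (x i)) = a i + v i k) → (∃ i, v i ≠ 0) →
      1 ≤ ∑ i, g i (v i) ∧ ((∃ i ∈ I, v i (k0 i) ≠ 0) → 1 < ∑ i, g i (v i)))
    (hθ : HasForms (∑ i, n i + s) {P | IsPrimeDivisor y P} (fun _ => 0) (BaseField x) s lam) :
    KodairaGe (∑ i, n i + s) {P | IsPrimeDivisor y P} (fun _ => 0) (∑ i ∈ I, n i + lam) := by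
  obtain ⟨M, hM, θ, hθ, hne⟩ := hθ
  obtain ⟨T, hT, ω, hω, D, hD, hind'⟩ := Pool.Agent.TH756.PN.fibred_main hK hℓ g hg hx0 hind
    {P | IsPrimeDivisor y P} (fun f hf => finite_ord hy hf) (fun _ => (0 : ℝ))
    (fun _ => (0 : ℝ)) (fun _ => (0 : ℝ))
    (fun P hP => le_rfl) (fun P hP => by simp) I k0
    (fun P hP _ a v hv h0 => by
      obtain ⟨h1, h2⟩ := hbase P hP a v hv.1 hv.2.1 hv.2.2 h0
      refine ⟨?_, fun h => ?_⟩
      · rw [sub_zero]
        exact_mod_cast h1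
      · rw [sub_zero]
        exact_mod_cast h2 h)
    hM (fun b => (hθ b).1) (fun P hP hd G hG b => (hθ b).2 P hP hd G hG) hne
  exact ⟨T, hT, ω, hω, D, hD, hind'⟩

theorem tower_main {m : ℕ} {n q : Fin m → ℕ}
    {ℓ : ∀ i, Fin (q i) → Form (n i)} (hℓ : ∀ i k, ℓ i k ≠ 0) (g : ∀ i, (Fin (q i) → ℕ) → ℚ)
    (hg : ∀ i, Pool.Agent.TH756.PN.Wtd (ℓ i) (g i)) {K : Type} [Field K] [Algebra ℂ K]
    {N l : ℕ} {E : Fin (l + 1) → IntermediateField ℂ K} {D : Fin (l + 1) → ℕ} {e lam : Fin l → ℕ}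
    {c : ℕ} {r s : Fin c → ℕ} {y : Fin (N + 1) → K}
    (hy : IsCanonicalVariety y (D (Fin.last l) + ∑ j, r j)) {x : ∀ i, Fin (n i + 1) → K}
    (hx0 : ∀ i, x i 0 ≠ 0) (hind : AlgebraicIndependent ℂ (affine x)) (hE0 : E 0 = BaseField x)
    (hT : IsOrbifoldTower {P | IsPrimeDivisor y P} (fun _ => 0) E D e lam)
    (I : Finset (Fin m)) (k0 : ∀ i, Fin (q i))
    (hbase : ∀ P, IsPrimeDivisor y P → ∀ (a : Fin m → ℤ) (v : ∀ i, Fin (q i) → ℕ),
      (∀ i (φ : Form (n i)), Pool.Agent.X180.TP.form φ (x i) = 0 ∨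
        a i ≤ P.ord (Pool.Agent.X180.TP.form φ (x i))) →
      (∀ i, ∃ φ : Form (n i), Pool.Agent.X180.TP.form φ (x i) ≠ 0 ∧
        P.ord (Pool.Agent.X180.TP.form φ (x i)) = a i) →
      (∀ i k, P.ord (Pool.Agent.X180.TP.form (ℓ i k) (x i)) = a i + v i k) → (∃ i, v i ≠ 0) →
      1 ≤ ∑ i, g i (v i) ∧ ((∃ i ∈ I, v i (k0 i) ≠ 0) → 1 < ∑ i, g i (v i)))
    {w : ∀ j, Fin (s j) → ℚ} (hF : Fibres y (E (Fin.last l)) r s w) :
    Nonvanishing y (D (Fin.last l) + ∑ j, r j) (∑ i ∈ I, n i + ∑ i, lam i + big r s w) r s w ∧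
      (I = Finset.univ → (∀ i, lam i = e i) →
        Abundance y (D (Fin.last l) + ∑ j, r j) (D (Fin.last l)) r s w) := by
  have htr : Algebra.trdeg ℂ (BaseField x) = (∑ i, n i : ℕ) := by
    let e : ((i : Fin m) × Fin (n i)) ≃ Fin (∑ i, n i) := finSigmaFinEquiv
    have huu : AlgebraicIndependent ℂ (Pool.Agent.TH756.PR.uu e x) :=
      hind.comp e.symm e.symm.injective
    have hrange : Set.range (Pool.Agent.TH756.PR.uu e x) = Set.range (affine x) :=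
      e.symm.surjective.range_comp (affine x)
    have h2 := Pool.Agent.X180.Multi.trdeg_adjoin huu
    rw [hrange] at h2
    exact h2
  have hD0 : D 0 = ∑ i, n i := by
    have h1 := hT.1 0
    rw [hE0, htr] at h1
    exact_mod_cast h1.symm
  obtain ⟨hw, K', _, _, _, _, _, B, u, hB, hu, hH, hC⟩ := hF
  obtain ⟨κ, hκ, hκs⟩ := exists_idx r s w
  have hsum : D (Fin.last l) = D 0 + ∑ i, e i := dims fun i => (hT.2 i).2.1
  have hK : Algebra.trdeg ℂ K = (∑ i, n i + (∑ i, e i + ∑ j, r j) : ℕ) := by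
    rw [hy.2.1, hsum, hD0, add_assoc]
  have h1 : (∀ j, (r j + 1 : ℚ) ≤ ∑ i, w j i) →
      HasForms (∑ i, n i + (∑ i, e i + ∑ j, r j)) {P | IsPrimeDivisor y P}
        (fun _ => 0) (BaseField x) (∑ i, e i + ∑ j, r j) (∑ i, lam i + big r s w) := by
    intro hws
    have h0 : HasForms (D (Fin.last l) + ∑ j, r j) {P | IsPrimeDivisor y P}
        (hor (E (Fin.last l)) fun _ => 0) (E (Fin.last l)) (∑ j, r j) (big r s w) :=
      lc_low (N := D (Fin.last l) + ∑ j, r j)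
        (Pool.Agent.X180.Iso.trdeg_rel' hy.2.1 (hT.1 _)) hB finSigmaFinEquiv hu
        (fun j i => ((hw j).2 i).1) hws hκ hκs
        (fun P _ => hor_nonneg le_rfl) (Pool.Agent.X180.Iso.lcHor_hor hH)
    have h1 := (orb_forms (fun _ _ => le_rfl) hT hy.2.1 rfl h0).mono (δ' := fun _ => 0)
      (fun P _ => (hor_zero _ P).le)
    rw [hsum, hE0, hD0, add_assoc] at h1
    exact h1
  have h2 := fun hws => base_kod hy.1 hℓ g hg hx0 hind hK I k0 hbase (h1 hws)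
  refine ⟨nonvanishing_of hy (by omega) hw hB hu hC fun hws => ?_, fun hI hle =>
      abundance_of hy hw hB hu hC fun hws => ?_⟩
  · have h3 := h2 hws
    rw [hsum, hD0, add_assoc, add_assoc]
    exact h3
  · have h3 := h2 hws
    rw [hI, show ∑ i, lam i = ∑ i, e i from Finset.sum_congr rfl fun i _ => hle i] at h3
    rw [hsum, hD0, add_assoc, add_assoc]
    exact h3

/-- the base, for towers -/
theorem base_of {m : ℕ} {n q : Fin m → ℕ}
    {ℓ : ∀ i, Fin (q i) → Form (n i)} (hℓ : ∀ i k, ℓ i k ≠ 0) (g : ∀ i, (Fin (q i) → ℕ) → ℚ)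
    (hg : ∀ i, Pool.Agent.TH756.PN.Wtd (ℓ i) (g i)) {K : Type} [Field K] [Algebra ℂ K]
    {N l f : ℕ} {E : Fin (l + 1) → IntermediateField ℂ K} {D : Fin (l + 1) → ℕ} {e lam : Fin l → ℕ}
    {y : Fin (N + 1) → K}
    (hy : IsCanonicalVariety y (D (Fin.last l) + f)) {x : ∀ i, Fin (n i + 1) → K}
    (hx0 : ∀ i, x i 0 ≠ 0) (hind : AlgebraicIndependent ℂ (affine x)) (hE0 : E 0 = BaseField x)
    (hT : IsOrbifoldTower {P | IsPrimeDivisor y P} (fun _ => 0) E D e lam)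
    (I : Finset (Fin m)) (k0 : ∀ i, Fin (q i))
    (hbase : ∀ P, IsPrimeDivisor y P → ∀ (a : Fin m → ℤ) (v : ∀ i, Fin (q i) → ℕ),
      (∀ i (φ : Form (n i)), Pool.Agent.X180.TP.form φ (x i) = 0 ∨
        a i ≤ P.ord (Pool.Agent.X180.TP.form φ (x i))) →
      (∀ i, ∃ φ : Form (n i), Pool.Agent.X180.TP.form φ (x i) ≠ 0 ∧
        P.ord (Pool.Agent.X180.TP.form φ (x i)) = a i) →
      (∀ i k, P.ord (Pool.Agent.X180.TP.form (ℓ i k) (x i)) = a i + v i k) → (∃ i, v i ≠ 0) →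
      1 ≤ ∑ i, g i (v i) ∧ ((∃ i ∈ I, v i (k0 i) ≠ 0) → 1 < ∑ i, g i (v i))) (lam' : ℕ)
    (h0 : HasForms (D 0 + (∑ i, e i + f)) {P | IsPrimeDivisor y P}
      (fun _ => 0) (E 0) (∑ i, e i + f) lam') :
    KodairaGe (D 0 + (∑ i, e i + f)) {P | IsPrimeDivisor y P} (fun _ => 0)
      (∑ i ∈ I, n i + lam') := by
  have htr : Algebra.trdeg ℂ (BaseField x) = (∑ i, n i : ℕ) := by
    let e : ((i : Fin m) × Fin (n i)) ≃ Fin (∑ i, n i) := finSigmaFinEquiv
    have huu : AlgebraicIndependent ℂ (Pool.Agent.TH756.PR.uu e x) :=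
      hind.comp e.symm e.symm.injective
    have hrange : Set.range (Pool.Agent.TH756.PR.uu e x) = Set.range (affine x) :=
      e.symm.surjective.range_comp (affine x)
    have h2 := Pool.Agent.X180.Multi.trdeg_adjoin huu
    rw [hrange] at h2
    exact h2
  have hD0 : D 0 = ∑ i, n i := by
    have h1 := hT.1 0
    rw [hE0, htr] at h1
    exact_mod_cast h1.symm
  have hsum : D (Fin.last l) = D 0 + ∑ i, e i := dims fun i => (hT.2 i).2.1
  have hK : Algebra.trdeg ℂ K = (∑ i, n i + (∑ i, e i + f) : ℕ) := by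
    rw [hy.2.1, hsum, hD0, add_assoc]
  rw [hE0, hD0] at h0
  rw [hD0]
  exact base_kod hy.1 hℓ g hg hx0 hind hK I k0 hbase h0

end Pool.Agent.X325.OB
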