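import Pool.Agent.X325.OB.LcBase
import Pool.Agent.X180.OP.Can

/-!
# Varieties with canonical singularities over mixed towers over log canonical arrangements
-/

set_option autoImplicit false
set_option linter.overlappingInstances false
set_option linter.unusedSectionVars false

open FF Module Pool.Agent.W602.Cov Pool.Agent.W602.GT
open Pool.Agent.Y172 Pool.Agent.Y191
open Pool.Agent.X180.Tow (HasForms)
open Pool.Agent.X180.Iso (hor ver)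

namespace Pool.Agent.X325.OB

/-- the base, for the zero divisor -/
theorem lc_base_zero {m s lam N : ℕ} {n q : Fin m → ℕ} {K : Type} [Field K] [Algebra ℂ K]
    {y : Fin (N + 1) → K} (hy : NormalModel y)
    {ℓ : ∀ i, Fin (q i) → Fin (n i + 1) → ℂ} {wt : ∀ i, Fin (q i) → ℚ}
    (hw0 : ∀ i k, 0 ≤ wt i k) (hws : ∀ i, (n i + 1 : ℚ) ≤ ∑ k, wt i k)
    (hlc : LcArr (⊥ : IntermediateField ℂ ℂ) ℓ wt) {x : ∀ i, Fin (n i + 1) → K}
    (hx0 : ∀ i, x i 0 ≠ 0)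
    (hind : AlgebraicIndependent ℂ (Pool.Agent.X180.OP.affine x))
    (hK : Algebra.trdeg ℂ K = (∑ i, n i + s : ℕ))
    (I : Finset (Fin m)) (k0 : ∀ i, Fin (q i))
    (hbase : ∀ P, IsPrimeDivisor y P → ∀ (a : Fin m → ℤ) (v : ∀ i, Fin (q i) → ℕ),
      (∀ i, MOrd P (fun k j => algebraMap ℂ K (ℓ i k j)) (x i) (a i) (v i)) → (∃ i, v i ≠ 0) →
      1 ≤ ∑ i, ((mx ℓ i (v i) : ℚ) - ∑ k, wt i k * v i k) ∧
        ((∃ i ∈ I, ∑ k, wt i k = (n i + 1 : ℚ) ∧ v i (k0 i) ≠ 0) →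
          1 < ∑ i, ((mx ℓ i (v i) : ℚ) - ∑ k, wt i k * v i k)))
    (hθ : HasForms (∑ i, n i + s) {P | IsPrimeDivisor y P}
      (fun _ => 0) (Pool.Agent.X180.OP.BaseField x) s lam) :
    KodairaGe (∑ i, n i + s) {P | IsPrimeDivisor y P} (fun _ => 0) (∑ i ∈ I, n i + lam) := by
  have h1 := lc_base (S := {P | IsPrimeDivisor y P}) (Δ := fun _ => 0) (lam := lam) (s := s) hy
    (fun P hP => hP) (fun P _ => le_rfl) hw0 hws hlc hx0 hind hK I k0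
    (fun P hP a v h1 h2 => by
      obtain ⟨h3, h4⟩ := hbase P hP a v h1 h2
      simp only [sub_zero]
      exact ⟨h3, h4⟩)
    (hθ.mono fun P _ => by
      simp only [Rat.cast_zero]
      exact (Pool.Agent.X180.OP.hor_zero' _ P).ge)
  simpa using h1

/-- **Nonvanishing for varieties over mixed towers over log canonical arrangements.** -/
theorem can_nv {m : ℕ} {n q : Fin m → ℕ} {ℓ : ∀ i, Fin (q i) → Fin (n i + 1) → ℂ}
    {wt : ∀ i, Fin (q i) → ℚ} (hw0 : ∀ i k, 0 ≤ wt i k) (hws : ∀ i, (n i + 1 : ℚ) ≤ ∑ k, wt i k)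
    (hlc : LcArr (⊥ : IntermediateField ℂ ℂ) ℓ wt) {K : Type} [Field K] [Algebra ℂ K]
    {N l c : ℕ} {E : Fin (l + 1) → IntermediateField ℂ K} {D : Fin (l + 1) → ℕ}
    {e lam : Fin l → ℕ}
    {r s : Fin c → ℕ} {y : Fin (N + 1) → K}
    (hy : Pool.Agent.X180.OP.IsCanonicalVariety y (D (Fin.last l) + ∑ j, r j))
    {x : ∀ i, Fin (n i + 1) → K}
    (hx0 : ∀ i, x i 0 ≠ 0) (hind : AlgebraicIndependent ℂ (Pool.Agent.X180.OP.affine x))
    (hE0 : E 0 = Pool.Agent.X180.OP.BaseField x) (I : Finset (Fin m)) (k0 : ∀ i, Fin (q i))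
    (hm : ∀ P, IsPrimeDivisor y P →
      ∀ (a : Fin m → ℤ) (v : ∀ i, Fin (q i) → ℕ),
      (∀ i, MOrd P (fun k j => algebraMap ℂ K (ℓ i k j)) (x i) (a i) (v i)) → (∃ i, v i ≠ 0) →
      1 ≤ ∑ i, ((mx ℓ i (v i) : ℚ) - ∑ k, wt i k * v i k) ∧
        ((∃ i ∈ I, ∑ k, wt i k = (n i + 1 : ℚ) ∧ v i (k0 i) ≠ 0) →
          1 < ∑ i, ((mx ℓ i (v i) : ℚ) - ∑ k, wt i k * v i k)))
    (hT : Pool.Agent.X180.OP.IsMixedTower {P | IsPrimeDivisor y P} (fun _ => 0) E D e lam)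
    {w : ∀ j, Fin (s j) → ℚ}
    (hF : Pool.Agent.X180.OP.CanonicalFibres y (E (Fin.last l)) r s w) :
    Pool.Agent.X180.OP.CanonicalNonvanishing y (D (Fin.last l) + ∑ j, r j)
      (∑ i ∈ I, n i + ∑ i, lam i + Pool.Agent.X180.OP.big r s w) r s w := by
  have hn' : D (Fin.last l) + ∑ j, r j = D 0 + (∑ i, e i + ∑ j, r j) := by
    rw [Pool.Agent.X180.TP.dims fun i => (hT.2 i).2.1, add_assoc]
  have htr : D 0 = ∑ i, n i := by
    have h3 := hT.1 0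
    rw [hE0, Pool.Agent.X180.OP.trdeg_base hind] at h3
    exact_mod_cast h3.symm
  refine Pool.Agent.X180.OP.can_non hy hT hF fun lam' h0 => ?_
  rw [hE0, htr] at h0
  rw [htr]
  exact lc_base_zero hy.1 hw0 hws hlc hx0 hind
    (by rw [← htr, ← hn']; exact hy.2.1) I k0 hm h0

/-- **Abundance for varieties over mixed towers over log canonical arrangements.** -/
theorem can_abund {m : ℕ} {n q : Fin m → ℕ} {ℓ : ∀ i, Fin (q i) → Fin (n i + 1) → ℂ}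
    {wt : ∀ i, Fin (q i) → ℚ} (hw0 : ∀ i k, 0 ≤ wt i k) (hws : ∀ i, (n i + 1 : ℚ) ≤ ∑ k, wt i k)
    (hlc : LcArr (⊥ : IntermediateField ℂ ℂ) ℓ wt) {K : Type} [Field K] [Algebra ℂ K]
    {N l c : ℕ} {E : Fin (l + 1) → IntermediateField ℂ K} {D : Fin (l + 1) → ℕ}
    {e : Fin l → ℕ}
    {r s : Fin c → ℕ} {y : Fin (N + 1) → K}
    (hy : Pool.Agent.X180.OP.IsCanonicalVariety y (D (Fin.last l) + ∑ j, r j))
    {x : ∀ i, Fin (n i + 1) → K}
    (hx0 : ∀ i, x i 0 ≠ 0) (hind : AlgebraicIndependent ℂ (Pool.Agent.X180.OP.affine x))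
    (hE0 : E 0 = Pool.Agent.X180.OP.BaseField x) (k0 : ∀ i, Fin (q i))
    (hm : ∀ P, IsPrimeDivisor y P →
      ∀ (a : Fin m → ℤ) (v : ∀ i, Fin (q i) → ℕ),
      (∀ i, MOrd P (fun k j => algebraMap ℂ K (ℓ i k j)) (x i) (a i) (v i)) → (∃ i, v i ≠ 0) →
      1 ≤ ∑ i, ((mx ℓ i (v i) : ℚ) - ∑ k, wt i k * v i k) ∧
        ((∃ i, ∑ k, wt i k = (n i + 1 : ℚ) ∧ v i (k0 i) ≠ 0) →
          1 < ∑ i, ((mx ℓ i (v i) : ℚ) - ∑ k, wt i k * v i k)))
    (hT : Pool.Agent.X180.OP.IsMixedTower {P | IsPrimeDivisor y P} (fun _ => 0) E D e e)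
    {w : ∀ j, Fin (s j) → ℚ}
    (hF : Pool.Agent.X180.OP.CanonicalFibres y (E (Fin.last l)) r s w) :
    Pool.Agent.X180.OP.CanonicalAbundance y (D (Fin.last l) + ∑ j, r j) (D (Fin.last l)) r s w := by
  have hn' : D (Fin.last l) + ∑ j, r j = D 0 + (∑ i, e i + ∑ j, r j) := by
    rw [Pool.Agent.X180.TP.dims fun i => (hT.2 i).2.1, add_assoc]
  have htr : D 0 = ∑ i, n i := by
    have h3 := hT.1 0
    rw [hE0, Pool.Agent.X180.OP.trdeg_base hind] at h3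
    exact_mod_cast h3.symm
  refine Pool.Agent.X180.OP.can_ab hy hT (fun _ => rfl) hF fun lam' h0 => ?_
  rw [hE0, htr] at h0
  rw [htr]
  exact lc_base_zero hy.1 hw0 hws hlc hx0 hind
    (by rw [← htr, ← hn']; exact hy.2.1) Finset.univ k0
    (fun P hP a v h1 h2 => by
      obtain ⟨h5, h6⟩ := hm P hP a v h1 h2
      exact ⟨h5, fun ⟨i, _, hi⟩ => h6 ⟨i, hi⟩⟩) h0

end Pool.Agent.X325.OB
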