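import Pool.Agent.X325.OB.LcBase
import Pool.Agent.X180.OP.Gen

/-!
# Varieties of general type as mixed towers over log canonical arrangements
-/

set_option autoImplicit false
set_option linter.overlappingInstances false
set_option linter.unusedSectionVars false

open FF Module Pool.Agent.W602.Cov Pool.Agent.W602.GT
open Pool.Agent.Y172 Pool.Agent.Y191
open Pool.Agent.X180.Tow (HasForms)
open Pool.Agent.X180.Iso (hor ver)

namespace Pool.Agent.X325.OB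

/-- **General type.** -/
theorem lc_general {m : ℕ} {n q : Fin m → ℕ} {ℓ : ∀ i, Fin (q i) → Fin (n i + 1) → ℂ}
    {wt : ∀ i, Fin (q i) → ℚ} (hw0 : ∀ i k, 0 ≤ wt i k) (hws : ∀ i, (n i + 1 : ℚ) ≤ ∑ k, wt i k)
    (hlc : LcArr (⊥ : IntermediateField ℂ ℂ) ℓ wt) {K : Type} [Field K] [Algebra ℂ K]
    {N l : ℕ} {E : Fin (l + 1) → IntermediateField ℂ K} {D : Fin (l + 1) → ℕ} {e : Fin l → ℕ}
    {y : Fin (N + 1) → K} (hy : NormalModel y) (hn : Algebra.trdeg ℂ K = D (Fin.last l))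
    {A : Place ℂ K → ℚ} (hA : Effective y A)
    (hps : Pool.Agent.X180.OP.PseudoEffective y (D (Fin.last l)) 0 A)
    {x : ∀ i, Fin (n i + 1) → K}
    (hx0 : ∀ i, x i 0 ≠ 0) (hind : AlgebraicIndependent ℂ (Pool.Agent.X180.OP.affine x))
    (hE0 : E 0 = Pool.Agent.X180.OP.BaseField x) (k0 : ∀ i, Fin (q i))
    (hm : ∀ P ∈ Pool.Agent.X180.OP.Relevant y (D (Fin.last l)) 0 0 A,
      ∀ (a : Fin m → ℤ) (v : ∀ i, Fin (q i) → ℕ),
      (∀ i, MOrd P (fun k j => algebraMap ℂ K (ℓ i k j)) (x i) (a i) (v i)) → (∃ i, v i ≠ 0) →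
      1 ≤ ∑ i, ((mx ℓ i (v i) : ℚ) - ∑ k, wt i k * v i k) ∧
        ((∃ i, ∑ k, wt i k = (n i + 1 : ℚ) ∧ v i (k0 i) ≠ 0) →
          1 < ∑ i, ((mx ℓ i (v i) : ℚ) - ∑ k, wt i k * v i k)))
    (hT : Pool.Agent.X180.OM.IsMixedTower
      (Pool.Agent.X180.OP.Relevant y (D (Fin.last l)) 0 0 A) (fun _ => 0) E D e e) :
    kodairaDim y (D (Fin.last l)) 0 = (D (Fin.last l) : WithBot ℕ) := by
  have h00 : Effective y (0 : Place ℂ K → ℚ) := ⟨fun _ _ => le_rfl, by simp⟩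
  have hsum : D (Fin.last l) = D 0 + ∑ i, e i :=
    Pool.Agent.X180.TP.dims fun i => (hT.2 i).2.1
  have hz : (fun P => (((0 : Place ℂ K → ℚ) P : ℚ) : ℝ)) = fun _ : Place ℂ K => (0 : ℝ) :=
    funext fun P => Rat.cast_zero
  have htr : D 0 = ∑ i, n i := by
    have h3 := hT.1 0
    rw [hE0, Pool.Agent.X180.OP.trdeg_base hind] at h3
    exact_mod_cast h3.symm
  refine Pool.Agent.X180.OP.general_type (Γ := 0) ⟨hy, hn, h00⟩ h00 hA
    (by rw [sub_zero]; exact hps) (by rw [hz]; exact hT) (fun lam' h0 => ?_) 0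
    fun P _ => ⟨fun _ => rfl, fun h => absurd rfl h⟩
  rw [hE0, htr] at h0
  rw [htr]
  exact lc_base hy (fun P hP => hP.1) (fun P hP => le_rfl) hw0 hws hlc hx0 hind
    (by rw [← htr, ← hsum]; exact hn) Finset.univ k0
    (fun P hP a v h1 h2 => by
      obtain ⟨h5, h6⟩ := hm P hP a v h1 h2
      simp only [Pi.zero_apply, sub_zero]
      exact ⟨h5, fun ⟨i, _, hi⟩ => h6 ⟨i, hi⟩⟩) h0

end Pool.Agent.X325.OB
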