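import Pool.Agent.X325.OB.TowC
import Pool.Agent.X180.OT.Unir
import Pool.Agent.X180.Abn.Sys1

/-!
# Fibrations over towers whose fibres dominate a constant variety
-/

set_option autoImplicit false
set_option linter.overlappingInstances false
set_option linter.unusedSectionVars false

open FF Module Pool.Agent.W602.Cov Pool.Agent.W602.GT
open Pool.Agent.Y172 Pool.Agent.Y191
open Pool.Agent.X180.Tow (HasForms hor_nonneg)
open Pool.Agent.X180.Iso (hor ver)
open Pool.Agent.X180.TP (dims)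
open Pool.Agent.X180.OT (kod_can)

namespace Pool.Agent.X325.OB

section

variable {K : Type} [Field K] [Algebra ℂ K] {N l f : ℕ}
    {E : Fin (l + 1) → IntermediateField ℂ K} {D : Fin (l + 1) → ℕ} {e lam : Fin l → ℕ}
    {y : Fin (N + 1) → K}

/-- from forms along the fibres to the Kodaira dimension -/
theorem top_kod (hy : Pool.Agent.X180.OP.IsCanonicalVariety y (D (Fin.last l) + f))
    (hT : Pool.Agent.X180.OD.IsTower {P | IsPrimeDivisor y P} (fun _ => 0) E D e lam) {k : ℕ}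
    (hbase : ∀ lam' : ℕ, HasForms (D 0 + (∑ i, e i + f)) {P | IsPrimeDivisor y P}
      (fun _ => 0) (E 0) (∑ i, e i + f) lam' →
      KodairaGe (D 0 + (∑ i, e i + f)) {P | IsPrimeDivisor y P} (fun _ => 0) (k + lam'))
    {h : ℕ} (h0 : HasForms (D (Fin.last l) + f) {P | IsPrimeDivisor y P} (fun _ => 0)
      (E (Fin.last l)) f h) :
    Pool.Agent.W619.Y.KodTr ℂ K (D (Fin.last l) + f) (k + ∑ i, lam i + h) := by
  have hK : Algebra.trdeg ℂ K = (D (Fin.last l) + f : ℕ) := hy.2.1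
  have h1 := (Pool.Agent.X180.OD.tower_forms (fun _ _ => le_rfl) hT hK rfl
    (h0.mono fun P _ => hor_nonneg le_rfl)).mono (δ' := fun _ => 0)
    (fun P _ => (Pool.Agent.X180.OP.hor_zero' _ P).le)
  have hsum : D (Fin.last l) = D 0 + ∑ i, e i := dims fun i => (hT.2 i).2.1
  have hn : D (Fin.last l) + f = D 0 + (∑ i, e i + f) := by
    rw [hsum, add_assoc]
  rw [hn] at h1
  have h2 := hbase _ h1
  rw [← hn, ← add_assoc k] at h2
  exact kod_can hy.1 hK hy.2.2 h2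

/-- **Isotrivial fibrations over towers.** -/
theorem iso_top (hy : Pool.Agent.X180.OP.IsCanonicalVariety y (D (Fin.last l) + f))
    (hT : Pool.Agent.X180.OD.IsTower {P | IsPrimeDivisor y P} (fun _ => 0) E D e lam) {k : ℕ}
    (hbase : ∀ lam' : ℕ, HasForms (D 0 + (∑ i, e i + f)) {P | IsPrimeDivisor y P}
      (fun _ => 0) (E 0) (∑ i, e i + f) lam' →
      KodairaGe (D 0 + (∑ i, e i + f)) {P | IsPrimeDivisor y P} (fun _ => 0) (k + lam'))
    {K' : Type} [Field K'] [Algebra ℂ K'] [Algebra K K'] [IsScalarTower ℂ K K'] {α : K'}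
    (hα : IsAlgebraic (E (Fin.last l)) α) (htop : IntermediateField.adjoin K {α} = ⊤)
    (M : IntermediateField ℂ K') [Algebra.EssFiniteType ℂ M] (hM : Algebra.trdeg ℂ M = f)
    (hdom : ∀ z : K', IsAlgebraic (IntermediateField.adjoin ℂ
      ({a : K' | IsAlgebraic (E (Fin.last l)) a} ∪ M)) z) {h : ℕ}
    (hk : KodGe ℂ M f (fun _ => False) h) :
    KodGe ℂ K (D (Fin.last l) + f) (fun _ => False) (k + ∑ i, lam i + h) := by
  have hfin : FiniteDimensional K K' := Pool.Agent.X180.Iso.fin_of_top hα htop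
  have hK : Algebra.trdeg ℂ K = (D (Fin.last l) + f : ℕ) := hy.2.1
  have h0 : HasForms (D (Fin.last l) + f) {P | IsPrimeDivisor y P} (fun _ => 0)
      (E (Fin.last l)) f h :=
    Pool.Agent.X180.Iso.fib_forms hK (Pool.Agent.X180.Iso.trdeg_rel hK (hT.1 _)) hα htop M hM
      (fun z => Pool.Agent.X180.Iso.alg_acl M (hdom z)) hk _
  exact Pool.Agent.X180.Abn.kodGe_of_kodTr (top_kod hy hT hbase h0)

/-- **Fibrations whose geometric generic fibre dominates a constant variety.** -/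
theorem geo_top [Algebra.EssFiniteType ℂ K]
    (hy : Pool.Agent.X180.OP.IsCanonicalVariety y (D (Fin.last l) + (f + 1)))
    (hT : Pool.Agent.X180.OD.IsTower {P | IsPrimeDivisor y P} (fun _ => 0) E D e lam) {k : ℕ}
    (hbase : ∀ lam' : ℕ, HasForms (D 0 + (∑ i, e i + (f + 1))) {P | IsPrimeDivisor y P}
      (fun _ => 0) (E 0) (∑ i, e i + (f + 1)) lam' →
      KodairaGe (D 0 + (∑ i, e i + (f + 1))) {P | IsPrimeDivisor y P} (fun _ => 0) (k + lam'))
    (L : IntermediateField ℂ K) [Algebra.EssFiniteType ℂ L]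
    (hL : ∀ x : K, x ∈ L ↔ IsAlgebraic (E (Fin.last l)) x)
    {Λ F : Type} [Field Λ] [Field F] [Algebra L Λ] [IsAlgClosure L Λ] [Algebra Λ F] [Algebra K F]
    [IsScalarTower L Λ F] [Algebra ℂ Λ] [Algebra ℂ F] [IsScalarTower ℂ L Λ] [IsScalarTower ℂ Λ F]
    [IsScalarTower ℂ K F] (hF : IntermediateField.adjoin Λ (Set.range (algebraMap K F)) = ⊤)
    (M : IntermediateField ℂ F) [Algebra.EssFiniteType ℂ M]
    (hM : Algebra.trdeg ℂ M = (f + 1 : ℕ))
    (hdom : ∀ z : F, IsAlgebraic (IntermediateField.adjoin Λ (M : Set F)) z) (h : ℕ) :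
    (Pool.Agent.W619.Y.KodTr ℂ M (f + 1) h →
      Pool.Agent.W619.Y.KodTr ℂ K (D (Fin.last l) + (f + 1)) (k + ∑ i, lam i + h)) ∧
    (Pool.Agent.W619.TW.NumLe Λ F (f + 1) (fun _ => False) h →
      Pool.Agent.W619.TW.NumLe ℂ K (D (Fin.last l) + (f + 1)) (fun _ => False)
        (D (Fin.last l) + h)) := by
  have hK : Algebra.trdeg ℂ K = (D (Fin.last l) + (f + 1) : ℕ) := hy.2.1
  have hVL : E (Fin.last l) ≤ L := fun x hx => (hL x).2 (isAlgebraic_algebraMap (⟨x, hx⟩ :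
    E (Fin.last l)))
  have hLalg : ∀ x ∈ L, IsAlgebraic (E (Fin.last l)) x := fun x hx => (hL x).1 hx
  have hLA : L = Pool.Agent.X180.Iso.Acl (E (Fin.last l)) := by
    ext x
    rw [hL, Pool.Agent.X180.Iso.mem_acl]
  have hΛalg : Algebra.IsAlgebraic L Λ := IsAlgClosure.isAlgebraic
  have hLK : ∀ x : K, IsIntegral L x → ∃ y : L, algebraMap L K y = x := by
    intro x hx
    have h1 : IsAlgebraic (Pool.Agent.X180.Iso.Acl (E (Fin.last l))) x := by
      rw [← hLA]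
      exact hx.isAlgebraic
    have h2 : x ∈ L := by
      rw [hLA]
      exact Pool.Agent.X180.Iso.acl_acl h1
    exact ⟨⟨x, h2⟩, rfl⟩
  have htrL : Algebra.trdeg ℂ L = D (Fin.last l) := by
    rw [← hT.1 (Fin.last l)]
    exact Pool.Agent.X180.Abn.trdeg_of_alg hVL hLalg
  refine ⟨fun hk => ?_, fun hnum => ?_⟩
  · refine top_kod hy hT hbase ?_
    exact Pool.Agent.X180.Abn.geo_forms hK (Pool.Agent.X180.Iso.trdeg_rel hK (hT.1 _)) hLalg hF
        (fun z => ((hΛalg.isAlgebraic z).algHom (IsScalarTower.toAlgHom L Λ F))) M hM hdom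
        (Pool.Agent.X180.Abn.kodGe_of_kodTr hk) _
  · exact Pool.Agent.Y174.easy_add ‹Algebra.EssFiniteType ℂ L› ‹Algebra.EssFiniteType ℂ K› hF hLK
      htrL hK hnum

end

/-- **Isotrivial fibrations over towers: all statements.** -/
theorem iso_all {K : Type} [Field K] [Algebra ℂ K] {N l f : ℕ}
    {E : Fin (l + 1) → IntermediateField ℂ K} {D : Fin (l + 1) → ℕ} {e lam : Fin l → ℕ}
    {y : Fin (N + 1) → K} [Algebra.EssFiniteType ℂ K]
    (hy : Pool.Agent.X180.OP.IsCanonicalVariety y (D (Fin.last l) + f))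
    (hT : Pool.Agent.X180.OD.IsTower {P | IsPrimeDivisor y P} (fun _ => 0) E D e lam) {k : ℕ}
    (hbase : ∀ lam' : ℕ, HasForms (D 0 + (∑ i, e i + f)) {P | IsPrimeDivisor y P}
      (fun _ => 0) (E 0) (∑ i, e i + f) lam' →
      KodairaGe (D 0 + (∑ i, e i + f)) {P | IsPrimeDivisor y P} (fun _ => 0) (k + lam'))
    {K' : Type} [Field K'] [Algebra ℂ K'] [Algebra K K'] [IsScalarTower ℂ K K'] {α : K'}
    (hα : IsAlgebraic (E (Fin.last l)) α) (htop : IntermediateField.adjoin K {α} = ⊤)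
    (M : IntermediateField ℂ K') [Algebra.EssFiniteType ℂ M] (hM : Algebra.trdeg ℂ M = f) :
    ((∀ z : K', IsAlgebraic (IntermediateField.adjoin ℂ
      ({a : K' | IsAlgebraic (E (Fin.last l)) a} ∪ M)) z) → ∀ h : ℕ,
        KodGe ℂ M f (fun _ => False) h →
      KodGe ℂ K (D (Fin.last l) + f) (fun _ => False) (k + ∑ i, lam i + h)) ∧
    (IntermediateField.adjoin ℂ ({a : K' | IsAlgebraic (E (Fin.last l)) a} ∪ M) = ⊤ →
      Pool.Agent.W619.PQ.IsUniruled ℂ M f →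
      Pool.Agent.W619.PQ.IsUniruled ℂ K (D (Fin.last l) + f)) ∧
    (IntermediateField.adjoin ℂ ({a : K' | IsAlgebraic (E (Fin.last l)) a} ∪ M) = ⊤ →
      Pool.Agent.W619.PQ.IsUniruled ℂ M f ∨ KodGe ℂ M f (fun _ => False) 0 →
      [¬ KodGe ℂ K (D (Fin.last l) + f) (fun _ => False) 0,
        ¬ Psef ℂ K (D (Fin.last l) + f) (fun _ => False),
        Pool.Agent.W619.PQ.IsUniruled ℂ K (D (Fin.last l) + f),
        ¬ KodGe ℂ M f (fun _ => False) 0,
        ¬ Psef ℂ M f (fun _ => False), Pool.Agent.W619.PQ.IsUniruled ℂ M f].TFAE) := by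
  have hK : Algebra.trdeg ℂ K = (D (Fin.last l) + f : ℕ) := hy.2.1
  have hV := hT.1 (Fin.last l)
  have h1 : (∀ z : K', IsAlgebraic (IntermediateField.adjoin ℂ
      ({a : K' | IsAlgebraic (E (Fin.last l)) a} ∪ M)) z) → ∀ h : ℕ,
        KodGe ℂ M f (fun _ => False) h →
      KodGe ℂ K (D (Fin.last l) + f) (fun _ => False) (k + ∑ i, lam i + h) :=
    fun hdom h hk => iso_top hy hT hbase hα htop M hM hdom hk
  have h2 : IntermediateField.adjoin ℂ ({a : K' | IsAlgebraic (E (Fin.last l)) a} ∪ M) = ⊤ →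
      Pool.Agent.W619.PQ.IsUniruled ℂ M f →
      Pool.Agent.W619.PQ.IsUniruled ℂ K (D (Fin.last l) + f) :=
    fun hp hu => Pool.Agent.X180.Iso.iso_unir hK hV hα htop M hM hu hp
  refine ⟨h1, h2, fun hp hF => ?_⟩
  have hdom : ∀ z : K', IsAlgebraic (IntermediateField.adjoin ℂ
      ({a : K' | IsAlgebraic (E (Fin.last l)) a} ∪ M)) z := by
    intro z
    have h3 : z ∈ IntermediateField.adjoin ℂ ({a : K' | IsAlgebraic (E (Fin.last l)) a} ∪ M) := by
      rw [hp]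
      trivial
    exact isAlgebraic_algebraMap (⟨z, h3⟩ : IntermediateField.adjoin ℂ
      ({a : K' | IsAlgebraic (E (Fin.last l)) a} ∪ M))
  have hmono : KodGe ℂ K (D (Fin.last l) + f) (fun _ => False) (k + ∑ i, lam i + 0) →
      KodGe ℂ K (D (Fin.last l) + f) (fun _ => False) 0 := by
    rintro ⟨m', hm', ω, h3, G, h4, -⟩
    refine ⟨m', hm', fun _ => ω 0, fun _ => h3 0, G, h4, ?_⟩
    exact algebraicIndependent_empty_type_iff.2 (algebraMap ℂ K).injective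
  tfae_have 6 → 3 := h2 hp
  tfae_have 3 → 2 := Pool.Agent.X180.OT.not_psef_of_uniruled hK
  tfae_have 2 → 1 := fun h hk => h (psef_of_kodGe hk)
  tfae_have 1 → 4 := fun h hk => h (hmono (h1 hdom 0 hk))
  tfae_have 4 → 6 := fun h => hF.resolve_right h
  tfae_have 6 → 5 := Pool.Agent.X180.OT.not_psef_of_uniruled hM
  tfae_have 5 → 4 := fun h hk => h (psef_of_kodGe hk)
  tfae_finish

/-- the base, for fibrations over towers over log canonical arrangements -/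
theorem lc_hbase {m : ℕ} {n q : Fin m → ℕ} {ℓ : ∀ i, Fin (q i) → Fin (n i + 1) → ℂ}
    {wt : ∀ i, Fin (q i) → ℚ} {K : Type} [Field K] [Algebra ℂ K]
    {N l f : ℕ} {E : Fin (l + 1) → IntermediateField ℂ K} {D : Fin (l + 1) → ℕ}
    {e lam : Fin l → ℕ} {y : Fin (N + 1) → K}
    (hw0 : ∀ i k, 0 ≤ wt i k) (hws : ∀ i, (n i + 1 : ℚ) ≤ ∑ k, wt i k)
    (hlc : LcArr (⊥ : IntermediateField ℂ ℂ) ℓ wt)
    (hy : Pool.Agent.X180.OP.IsCanonicalVariety y (D (Fin.last l) + f))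
    {x : ∀ i, Fin (n i + 1) → K}
    (hx0 : ∀ i, x i 0 ≠ 0) (hind : AlgebraicIndependent ℂ (Pool.Agent.X180.OP.affine x))
    (hE0 : E 0 = Pool.Agent.X180.OP.BaseField x) (I : Finset (Fin m)) (k0 : ∀ i, Fin (q i))
    (hm : ∀ P, IsPrimeDivisor y P →
      ∀ (a : Fin m → ℤ) (v : ∀ i, Fin (q i) → ℕ),
      (∀ i, MOrd P (fun k j => algebraMap ℂ K (ℓ i k j)) (x i) (a i) (v i)) → (∃ i, v i ≠ 0) →
      1 ≤ ∑ i, ((mx ℓ i (v i) : ℚ) - ∑ k, wt i k * v i k) ∧
        ((∃ i ∈ I, ∑ k, wt i k = (n i + 1 : ℚ) ∧ v i (k0 i) ≠ 0) →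
          1 < ∑ i, ((mx ℓ i (v i) : ℚ) - ∑ k, wt i k * v i k)))
    (hT : Pool.Agent.X180.OD.IsTower {P | IsPrimeDivisor y P} (fun _ => 0) E D e lam)
    (lam' : ℕ) (h0 : HasForms (D 0 + (∑ i, e i + f)) {P | IsPrimeDivisor y P}
      (fun _ => 0) (E 0) (∑ i, e i + f) lam') :
    D 0 = ∑ i, n i ∧
    KodairaGe (D 0 + (∑ i, e i + f)) {P | IsPrimeDivisor y P} (fun _ => 0)
      (∑ i ∈ I, n i + lam') := by
  have hn' : D (Fin.last l) + f = D 0 + (∑ i, e i + f) := by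
    rw [Pool.Agent.X180.TP.dims fun i => (hT.2 i).2.1, add_assoc]
  have htr : D 0 = ∑ i, n i := by
    have h3 := hT.1 0
    rw [hE0, Pool.Agent.X180.OP.trdeg_base hind] at h3
    exact_mod_cast h3.symm
  refine ⟨htr, ?_⟩
  rw [hE0, htr] at h0
  rw [htr]
  exact lc_base_zero hy.1 hw0 hws hlc hx0 hind
    (by rw [← htr, ← hn']; exact hy.2.1) I k0 hm h0

/-- the base, for fibrations over towers over subvarieties of projective space -/
theorem small_hbase {v q d : ℕ} {ℓ : Fin q → Fin (v + 1) → ℂ} {K : Type} [Field K]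
    [Algebra ℂ K] {N l f : ℕ} {E : Fin (l + 1) → IntermediateField ℂ K} {D : Fin (l + 1) → ℕ}
    {e lam : Fin l → ℕ} {y : Fin (N + 1) → K} (hd : 0 < d) (hI : Independent d ℓ)
    (hg : GeneralPosition ℓ) (hq : v + 1 ≤ q)
    (hy : Pool.Agent.X180.OP.IsCanonicalVariety y (D (Fin.last l) + f))
    {b : Fin (v + 1) → K} (hl : ∀ i, lf (ℓ i) b ≠ 0) (hb : ∃ j, b j ≠ 0) (hE0 : E 0 = RF ℂ b)
    {wt : Fin q → ℚ} (hwt0 : ∀ i, 0 ≤ wt i)
    (hlt : (((D 0 + 1) * (v - D 0 + d).choose (v - D 0) : ℕ) : ℚ) ≤ ∑ i, wt i)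
    (hm : ∀ P, IsPrimeDivisor y P → ∀ (a : ℤ) (μ : Fin q → ℕ), OrdData P ℓ b a μ → μ ≠ 0 →
      ((min (Finset.univ.filter fun i => μ i ≠ 0).card ((v - D 0 + d).choose (v - D 0)) : ℕ) : ℚ) ≤
        ∑ i, (1 - wt i) * μ i)
    (hT : Pool.Agent.X180.OD.IsTower {P | IsPrimeDivisor y P} (fun _ => 0) E D e lam)
    (lam' : ℕ) (h0 : HasForms (D 0 + (∑ i, e i + f)) {P | IsPrimeDivisor y P}
      (fun _ => 0) (E 0) (∑ i, e i + f) lam') :
    KodairaGe (D 0 + (∑ i, e i + f)) {P | IsPrimeDivisor y P} (fun _ => 0) lam' ∧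
    (∀ k0 : Fin q, ((((D 0 + 1) * (v - D 0 + d).choose (v - D 0) : ℕ) : ℚ) = ∑ i, wt i →
      ∀ P, IsPrimeDivisor y P → ∀ (a : ℤ) (μ : Fin q → ℕ), OrdData P ℓ b a μ → μ k0 ≠ 0 →
      ((min (Finset.univ.filter fun i => μ i ≠ 0).card ((v - D 0 + d).choose (v - D 0)) : ℕ) : ℚ) <
        ∑ i, (1 - wt i) * μ i) →
      KodairaGe (D 0 + (∑ i, e i + f)) {P | IsPrimeDivisor y P} (fun _ => 0) (D 0 + lam')) := by
  have hn' : D (Fin.last l) + f = D 0 + (∑ i, e i + f) := by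
    rw [Pool.Agent.X180.TP.dims fun i => (hT.2 i).2.1, add_assoc]
  have htr : Algebra.trdeg ℂ (RF ℂ b) = (D 0 : ℕ) := by
    rw [← hE0]
    exact hT.1 0
  rw [hE0] at h0
  exact small_zero hd hI hg hq hy.1 hl hb htr (by rw [← hn']; exact hy.2.1) hwt0 hlt
    (fun P hP c e ho he => hm P hP c e ho he) h0

end Pool.Agent.X325.OB
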