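import Pool.Agent.TH756.PN.TenM
import Pool.Agent.X180.OP.Mix
import Pool.Agent.X180.OP.Prod

/-!
# Products of projective spaces with log Calabi-Yau arrangements as bases of towers of pairs
-/

set_option autoImplicit false
set_option linter.overlappingInstances false
set_option linter.unusedSectionVars false

open FF Module Pool.Agent.W602.Cov Pool.Agent.W602.GT
open Pool.Agent.Y172 Pool.Agent.Y191
open Pool.Agent.X180.Tow (HasForms)
open Pool.Agent.X180.Iso (hor ver)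

namespace Pool.Agent.X325.OB

/-- **The base, for pairs.** -/
theorem pair_base {m s lam N : ℕ} {n q : Fin m → ℕ} {K : Type} [Field K] [Algebra ℂ K]
    {y : Fin (N + 1) → K} (hy : NormalModel y) {S : Set (Place ℂ K)}
    (hS : ∀ P ∈ S, IsPrimeDivisor y P) {Δ : Place ℂ K → ℚ} (hΔ : ∀ P ∈ S, 0 ≤ Δ P)
    {ℓ : ∀ i, Fin (q i) → Form (n i)}
    (hℓ : ∀ i k, ℓ i k ≠ 0) (g : ∀ i, (Fin (q i) → ℕ) → ℚ)
    (hg : ∀ i, Pool.Agent.TH756.PN.Wtd (ℓ i) (g i)) {x : ∀ i, Fin (n i + 1) → K}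
    (hx0 : ∀ i, x i 0 ≠ 0)
    (hind : AlgebraicIndependent ℂ (Pool.Agent.X180.OP.affine x))
    (hK : Algebra.trdeg ℂ K = (∑ i, n i + s : ℕ))
    (I : Finset (Fin m)) (k0 : ∀ i, Fin (q i))
    (hbase : ∀ P ∈ S, ∀ (a : Fin m → ℤ) (v : ∀ i, Fin (q i) → ℕ),
      (∀ i (φ : Form (n i)), Pool.Agent.X180.OP.form φ (x i) = 0 ∨
        a i ≤ P.ord (Pool.Agent.X180.OP.form φ (x i))) →
      (∀ i, ∃ φ : Form (n i), Pool.Agent.X180.OP.form φ (x i) ≠ 0 ∧
        P.ord (Pool.Agent.X180.OP.form φ (x i)) = a i) →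
      (∀ i k, P.ord (Pool.Agent.X180.OP.form (ℓ i k) (x i)) = a i + v i k) → (∃ i, v i ≠ 0) →
      1 - Δ P ≤ ∑ i, g i (v i) ∧ ((∃ i ∈ I, v i (k0 i) ≠ 0) → 1 - Δ P < ∑ i, g i (v i)))
    (hθ : HasForms (∑ i, n i + s) S
      (hor (Pool.Agent.X180.OP.BaseField x) fun P => (Δ P : ℝ)) (Pool.Agent.X180.OP.BaseField x)
      s lam) :
    KodairaGe (∑ i, n i + s) S (fun P => (Δ P : ℝ)) (∑ i ∈ I, n i + lam) := by
  classical
  obtain ⟨M, hM, θ, hθ, hne⟩ := hθ
  have hlx : ∀ i k, Pool.Agent.X180.OP.form (ℓ i k) (x i) ≠ 0 := fun i k =>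
    Pool.Agent.TH152.AC.lf_ne (hx0 i) (hind.comp
      (fun j : Fin (n i) => (⟨i, j⟩ : (i : Fin m) × Fin (n i))) (fun j j' h => by simpa using h))
      (hℓ i k)
  obtain ⟨T, hT, ω, hω, D, hD, hind'⟩ := Pool.Agent.TH756.PN.fibred_main hK hℓ g hg hx0 hind
    S (fun f hf => (finite_ord hy hf).subset fun P hP => ⟨hS P hP.1, hP.2⟩)
    (ver (Pool.Agent.X180.OP.BaseField x) fun P => (Δ P : ℝ))
    (hor (Pool.Agent.X180.OP.BaseField x) fun P => (Δ P : ℝ)) (fun P => (Δ P : ℝ))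
    (fun P hP => by
      unfold ver
      split_ifs
      · exact le_rfl
      · exact Rat.cast_nonneg.2 (hΔ P hP)) (fun P _ => by
      unfold ver hor
      split_ifs <;> simp) I k0
    (fun P hP _ a v hv h0 => by
      have hver : ver (Pool.Agent.X180.OP.BaseField x) (fun P => (Δ P : ℝ)) P = (Δ P : ℝ) := by
        rw [ver, if_neg]
        intro htriv
        obtain ⟨i, hi⟩ := h0
        obtain ⟨k, hk⟩ := Function.ne_iff.1 hi
        obtain ⟨φ, hφ, hφa⟩ := hv.2.1 i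
        have h1 := htriv _ (Pool.Agent.X180.Multi.lf_div_mem hx0 i φ) (div_ne_zero hφ (hx0 i))
        have h2 := htriv _ (Pool.Agent.X180.Multi.lf_div_mem hx0 i (ℓ i k))
          (div_ne_zero (hlx i k) (hx0 i))
        have h3 := hv.2.2 i k
        rw [P.ord_div hφ (hx0 i), hφa] at h1
        have hlx' : Pool.Agent.W602.Cov.G.lf (ℓ i k) (x i) ≠ 0 := hlx i k
        have h4 : P.ord (Pool.Agent.W602.Cov.G.lf (ℓ i k) (x i)) - P.ord (x i 0) = 0 := by
          rw [← P.ord_div hlx' (hx0 i)]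
          exact h2
        rw [h3] at h4
        apply hk
        simp only [Pi.zero_apply]
        omega
      rw [hver]
      obtain ⟨h1, h2⟩ := hbase P hP a v hv.1 hv.2.1 hv.2.2 h0
      refine ⟨?_, fun h => ?_⟩
      · exact_mod_cast h1
      · exact_mod_cast h2 h)
    hM (fun b => (hθ b).1) (fun P hP hd G hG b => (hθ b).2 P hP hd G hG) hne
  exact ⟨T, hT, ω, hω, D, hD, hind'⟩

end Pool.Agent.X325.OB
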