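import Pool.Agent.X180.OT.Small
import Pool.Agent.X180.OP.Mix
import Pool.Agent.X180.OP.Prod
import Pool.Agent.X180.OP.Can

/-!
# Subvarieties of projective space as bases of towers of pairs
-/

set_option autoImplicit false
set_option linter.overlappingInstances false
set_option linter.unusedSectionVars false

open FF Module Pool.Agent.W602.Cov Pool.Agent.W602.GT
open Pool.Agent.Y172 Pool.Agent.Y191
open Pool.Agent.X180.Tow (HasForms)
open Pool.Agent.X180.Iso (hor ver)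

namespace Pool.Agent.X325.OB

theorem ordData_unique {v q : ℕ} {K : Type} [Field K] [Algebra ℂ K] {P : Place ℂ K}
    {ℓ : Fin q → Fin (v + 1) → ℂ} {b : Fin (v + 1) → K} {c c' : ℤ} {e e' : Fin q → ℕ}
    (h : OrdData P ℓ b c e) (h' : OrdData P ℓ b c' e') : c = c' ∧ e = e' := by
  have hc : c = c' := by
    obtain ⟨j, hj, hjc⟩ := h.2.1
    obtain ⟨j', hj', hjc'⟩ := h'.2.1
    have h1 := h.1 j' hj'
    have h2 := h'.1 j hj
    omega
  refine ⟨hc, funext fun i => ?_⟩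
  have h1 := h.2.2 i
  have h2 := h'.2.2 i
  omega

theorem exists_eps {α : Type} {T : Set α} (hT : T.Finite) (f : α → ℚ → Prop)
    (hmono : ∀ a ε ε', 0 < ε → ε ≤ ε' → f a ε' → f a ε) (h : ∀ a ∈ T, ∃ ε, 0 < ε ∧ f a ε) :
    ∃ ε, 0 < ε ∧ ∀ a ∈ T, f a ε := by
  induction T, hT using Set.Finite.induction_on with
  | empty => exact ⟨1, one_pos, fun a ha => ha.elim⟩
  | @insert a T' _ _ ih =>
    obtain ⟨ε₁, h1, h2⟩ := ih fun b hb => h b (Set.mem_insert_of_mem _ hb)
    obtain ⟨ε₂, h3, h4⟩ := h a (Set.mem_insert _ _)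
    refine ⟨min ε₁ ε₂, lt_min h1 h3, fun b hb => ?_⟩
    rcases hb with hb | hb
    · rw [hb]
      exact hmono a _ _ (lt_min h1 h3) (min_le_right _ _) h4
    · exact hmono b _ _ (lt_min h1 h3) (min_le_left _ _) (h2 b hb)

/-- **The base, for pairs: subvarieties of projective space.** -/
theorem small_pair {v q d p s lam N : ℕ} (hd : 0 < d) {ℓ : Fin q → Fin (v + 1) → ℂ}
    (hI : Independent d ℓ) (hg : GeneralPosition ℓ) (hq : v + 1 ≤ q) {K : Type} [Field K]
    [Algebra ℂ K] {y : Fin (N + 1) → K} (hy : NormalModel y) {b : Fin (v + 1) → K}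
    (hl : ∀ i, lf (ℓ i) b ≠ 0) (hb : ∃ j, b j ≠ 0) (htr : Algebra.trdeg ℂ (RF ℂ b) = p)
    (hK : Algebra.trdeg ℂ K = (p + s : ℕ)) {S : Set (Place ℂ K)}
    (hS : ∀ P ∈ S, IsPrimeDivisor y P) {Δ : Place ℂ K → ℚ} (hΔ : ∀ P ∈ S, 0 ≤ Δ P)
    {wt : Fin q → ℚ} (hwt0 : ∀ i, 0 ≤ wt i)
    (hlt : (((p + 1) * (v - p + d).choose (v - p) : ℕ) : ℚ) ≤ ∑ i, wt i)
    (hmult : ∀ P ∈ S, ∀ (c : ℤ) (e : Fin q → ℕ), OrdData P ℓ b c e → e ≠ 0 →
      ((min (Finset.univ.filter fun i => e i ≠ 0).card ((v - p + d).choose (v - p)) : ℕ) : ℚ) ≤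
        ((v - p + d).choose (v - p) : ℕ) * Δ P + ∑ i, (1 - wt i) * e i)
    (h0 : HasForms (p + s) S (hor (RF ℂ b) fun P => (Δ P : ℝ)) (RF ℂ b) s lam) :
    KodairaGe (p + s) S (fun P => (Δ P : ℝ)) lam ∧
      (∀ k0 : Fin q, ((((p + 1) * (v - p + d).choose (v - p) : ℕ) : ℚ) = ∑ i, wt i →
        ∀ P ∈ S, ∀ (c : ℤ) (e : Fin q → ℕ), OrdData P ℓ b c e → e k0 ≠ 0 →
        ((min (Finset.univ.filter fun i => e i ≠ 0).card ((v - p + d).choose (v - p)) : ℕ) : ℚ) <
          ((v - p + d).choose (v - p) : ℕ) * Δ P + ∑ i, (1 - wt i) * e i) →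
        KodairaGe (p + s) S (fun P => (Δ P : ℝ)) (p + lam)) := by
  classical
  obtain ⟨γ, hγ⟩ : ∃ γ, γ = (v - p + d).choose (v - p) := ⟨_, rfl⟩
  rw [← hγ] at hlt hmult ⊢
  obtain ⟨M, hM, θ, hθ, hne⟩ := h0
  -- the boundary is vertical at the prime divisors in the hyperplanes
  have hver : ∀ P ∈ S, ∀ (c : ℤ) (e : Fin q → ℕ), OrdData P ℓ b c e → e ≠ 0 →
      ver (RF ℂ b) (fun P => (Δ P : ℝ)) P = (Δ P : ℝ) := by
    intro P _ c e ho he
    rw [ver, if_neg]
    intro htriv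
    obtain ⟨k, hk⟩ := Function.ne_iff.1 he
    obtain ⟨j, hj, hjc⟩ := ho.2.1
    obtain ⟨j', hj', hj''⟩ : ∃ j', b j' ≠ 0 ∧ lf (ℓ k) b / b j ∈ RF ℂ b := by
      refine ⟨j, hj, ?_⟩
      have h1 : lf (ℓ k) b / b j = ∑ i, algebraMap ℂ K (ℓ k i) * (b i / b j) := by
        unfold lf
        rw [Finset.sum_div]
        exact Finset.sum_congr rfl fun i _ => by rw [mul_div_assoc]
      rw [h1]
      exact sum_mem fun i _ => mul_mem (IntermediateField.algebraMap_mem _ _)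
        (IntermediateField.subset_adjoin ℂ _ ⟨_, _, hj, rfl⟩)
    have h2 := htriv _ hj'' (div_ne_zero (hl k) hj)
    rw [P.ord_div (hl k) hj, hjc, ho.2.2 k] at h2
    apply hk
    simp only [Pi.zero_apply]
    omega
  have hver0 : ∀ P ∈ S, 0 ≤ ver (RF ℂ b) (fun P => (Δ P : ℝ)) P := by
    intro P hP
    unfold ver
    split_ifs
    · exact le_rfl
    · exact Rat.cast_nonneg.2 (hΔ P hP)
  -- for all weights
  have key : ∀ wt' : Fin q → ℚ, (∀ i, 0 ≤ wt' i) → (((p + 1) * γ : ℕ) : ℚ) ≤ ∑ i, wt' i →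
      (∀ P ∈ S, ∀ (c : ℤ) (e : Fin q → ℕ), OrdData P ℓ b c e → e ≠ 0 →
        ((min (Finset.univ.filter fun i => e i ≠ 0).card γ : ℕ) : ℚ) ≤
          (γ : ℕ) * Δ P + ∑ i, (1 - wt' i) * e i) →
      KodairaGe (p + s) S (fun P => (Δ P : ℝ)) lam ∧
      ((((p + 1) * γ : ℕ) : ℚ) < ∑ i, wt' i →
        KodairaGe (p + s) S (fun P => (Δ P : ℝ)) (p + lam)) := by
    intro wt' hwt' hlt' hm'
    have h3 := small_fib (K := K) (δ₁ := ver (RF ℂ b) fun P => (Δ P : ℝ))
      (δ₂ := hor (RF ℂ b) fun P => (Δ P : ℝ)) (δ := fun P => (Δ P : ℝ)) (X := S) (wt := wt')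
      (θ := θ) (m := M) (lam := lam)
      hd hI hg hq hl hb htr hK hwt' (by
        have h4 : gam (v - p) (d + 1) = γ := by rw [hγ]; rfl
        rw [h4]
        exact hlt') (fun P _ => by
        unfold ver hor
        split_ifs <;> simp) (fun P hP _ c e ho => by
        have h4 : gam (v - p) (d + 1) = γ := by rw [hγ]; rfl
        rw [h4]
        by_cases he : e = 0
        · subst he
          simp only [Pi.zero_apply, ne_eq, not_true_eq_false, Finset.filter_false,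
            Finset.card_empty, zero_min, Nat.cast_zero, mul_zero, Finset.sum_const_zero, add_zero]
          exact mul_nonneg (Nat.cast_nonneg _) (hver0 P hP)
        · rw [hver P hP c e ho he]
          have h5 := (Rat.cast_le (K := ℝ)).2 (hm' P hP c e ho he)
          push_cast at h5 ⊢
          exact h5) hM hθ hne
    have h4 : gam (v - p) (d + 1) = γ := by rw [hγ]; rfl
    rw [h4] at h3
    exact h3
  refine ⟨(key wt hwt0 hlt hmult).1, fun k0 hstr => ?_⟩
  rcases lt_or_eq_of_le hlt with hlt' | heq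
  · exact (key wt hwt0 hlt hmult).2 hlt'
  -- the borderline case
  have hstr' := hstr heq
  obtain ⟨j0, hj0⟩ := hb
  -- the prime divisors in the distinguished hyperplane
  have hfin : {P | P ∈ S ∧ ∃ (c : ℤ) (e : Fin q → ℕ), OrdData P ℓ b c e ∧ e k0 ≠ 0}.Finite := by
    have h1 : (⋃ j ∈ {j | b j ≠ 0}, {P | IsPrimeDivisor y P ∧ P.ord (lf (ℓ k0) b / b j) ≠ 0}).Finite
        := by
      refine Set.Finite.biUnion (Set.toFinite _) fun j hj => ?_
      exact (finite_ord hy (div_ne_zero (hl k0) hj)).subset fun P hP => hP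
    refine h1.subset ?_
    rintro P ⟨hP, c, e, ho, he⟩
    obtain ⟨j, hj, hjc⟩ := ho.2.1
    simp only [Set.mem_iUnion, Set.mem_setOf_eq]
    refine ⟨j, hj, hS P hP, ?_⟩
    rw [P.ord_div (hl k0) hj, hjc, ho.2.2 k0]
    omega
  obtain ⟨ε, hε, hεT⟩ := exists_eps hfin (fun P ε => ∀ (c : ℤ) (e : Fin q → ℕ),
      OrdData P ℓ b c e → e k0 ≠ 0 →
      ((min (Finset.univ.filter fun i => e i ≠ 0).card γ : ℕ) : ℚ) + ε * e k0 ≤
        (γ : ℕ) * Δ P + ∑ i, (1 - wt i) * e i) (fun P ε ε' _ h1 h2 c e ho he => by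
        have h3 := h2 c e ho he
        have h4 : ε * (e k0 : ℚ) ≤ ε' * e k0 := mul_le_mul_of_nonneg_right h1 (Nat.cast_nonneg _)
        linarith) (fun P ⟨hP, c, e, ho, he⟩ => by
        have h1 := hstr' P hP c e ho he
        have h2 : (0 : ℚ) < e k0 := by exact_mod_cast Nat.pos_of_ne_zero he
        refine ⟨((γ : ℕ) * Δ P + ∑ i, (1 - wt i) * e i -
          ((min (Finset.univ.filter fun i => e i ≠ 0).card γ : ℕ) : ℚ)) / e k0,
          div_pos (sub_pos.2 h1) h2, fun c' e' ho' he' => ?_⟩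
        obtain ⟨_, h4⟩ := ordData_unique ho ho'
        subst h4
        rw [div_mul_cancel₀ _ h2.ne']
        linarith)
  refine (key (fun i => wt i + if i = k0 then ε else 0) (fun i => ?_) ?_
    (fun P hP c e ho he => ?_)).2 ?_
  · have h1 := hwt0 i
    split_ifs
    · linarith
    · linarith
  · rw [Finset.sum_add_distrib]
    simp only [Finset.sum_ite_eq', Finset.mem_univ, if_true]
    linarith
  · have h1 : ∑ i, (1 - (wt i + if i = k0 then ε else 0)) * (e i : ℚ) =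
        ∑ i, (1 - wt i) * (e i : ℚ) - ε * e k0 := by
      rw [eq_sub_iff_add_eq]
      have h2 : ε * (e k0 : ℚ) = ∑ i, (if i = k0 then ε else 0) * (e i : ℚ) := by
        simp [ite_mul]
      rw [h2, ← Finset.sum_add_distrib]
      exact Finset.sum_congr rfl fun i _ => by ring
    rw [h1]
    by_cases he0 : e k0 = 0
    · have h2 := hmult P hP c e ho he
      rw [he0]
      simp only [Nat.cast_zero, mul_zero, sub_zero]
      exact h2
    · have h2 := hεT P ⟨hP, c, e, ho, he0⟩ c e ho he0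
      linarith
  · rw [Finset.sum_add_distrib]
    simp only [Finset.sum_ite_eq', Finset.mem_univ, if_true]
    linarith

end Pool.Agent.X325.OB
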