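import Pool.Agent.X325.OB.SmallTower
import Pool.Agent.X325.OB.CanBase
import Pool.Agent.X180.OC.Top
import Pool.Agent.X180.OD.Base

/-!
# Towers with orbifold and constant orbifold steps over products and over subvarieties
-/

set_option autoImplicit false
set_option linter.overlappingInstances false
set_option linter.unusedSectionVars false

open FF Module Pool.Agent.W602.Cov Pool.Agent.W602.GT
open Pool.Agent.Y172 Pool.Agent.Y191
open Pool.Agent.X180.Tow (HasForms)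
open Pool.Agent.X180.Iso (hor ver)

namespace Pool.Agent.X325.OB

section lc

variable {m : ℕ} {n q : Fin m → ℕ} {ℓ : ∀ i, Fin (q i) → Fin (n i + 1) → ℂ}
    {wt : ∀ i, Fin (q i) → ℚ} {K : Type} [Field K] [Algebra ℂ K]
    {N l c : ℕ} {E : Fin (l + 1) → IntermediateField ℂ K} {D : Fin (l + 1) → ℕ}
    {e lam : Fin l → ℕ} {r s : Fin c → ℕ} {y : Fin (N + 1) → K}

/-- **Abundance for pairs over towers over log canonical arrangements.** -/
theorem lc_tow_ab (hw0 : ∀ i k, 0 ≤ wt i k) (hws : ∀ i, (n i + 1 : ℚ) ≤ ∑ k, wt i k)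
    (hlc : LcArr (⊥ : IntermediateField ℂ ℂ) ℓ wt) {Δ Γ A : Place ℂ K → ℚ}
    (hy : Pool.Agent.X180.OP.IsPair y (D (Fin.last l) + ∑ j, r j) Δ) (hΓ : Effective y Γ)
    (hA : Effective y A)
    (hps : Pool.Agent.X180.OP.PseudoEffective y (D (Fin.last l) + ∑ j, r j) (Δ - Γ) A)
    {x : ∀ i, Fin (n i + 1) → K}
    (hx0 : ∀ i, x i 0 ≠ 0) (hind : AlgebraicIndependent ℂ (Pool.Agent.X180.OP.affine x))
    (hE0 : E 0 = Pool.Agent.X180.OP.BaseField x) (k0 : ∀ i, Fin (q i))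
    (hm : ∀ P ∈ Pool.Agent.X180.OP.Relevant y (D (Fin.last l) + ∑ j, r j) Δ Γ A,
      ∀ (a : Fin m → ℤ) (v : ∀ i, Fin (q i) → ℕ),
      (∀ i, MOrd P (fun k j => algebraMap ℂ K (ℓ i k j)) (x i) (a i) (v i)) → (∃ i, v i ≠ 0) →
      1 - Δ P ≤ ∑ i, ((mx ℓ i (v i) : ℚ) - ∑ k, wt i k * v i k) ∧
        ((∃ i, ∑ k, wt i k = (n i + 1 : ℚ) ∧ v i (k0 i) ≠ 0) →
          1 - Δ P < ∑ i, ((mx ℓ i (v i) : ℚ) - ∑ k, wt i k * v i k)))
    (hT : Pool.Agent.X180.OC.IsTower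
      {P | P ∈ Pool.Agent.X180.OP.Relevant y (D (Fin.last l) + ∑ j, r j) Δ Γ A ∧ Δ P < 1}
      (fun P => (Δ P : ℝ)) E D e e)
    {w : ∀ j, Fin (s j) → ℚ}
    (hF : Pool.Agent.X180.OP.Fibres y (D (Fin.last l) + ∑ j, r j) Δ
      {P | P ∈ Pool.Agent.X180.OP.Relevant y (D (Fin.last l) + ∑ j, r j) Δ Γ A ∧ Δ P < 1}
      (E (Fin.last l)) r s w) :
    Pool.Agent.X180.OP.Abundance y (D (Fin.last l) + ∑ j, r j) Δ Γ (D (Fin.last l)) r s w := by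
  have hn' : D (Fin.last l) + ∑ j, r j = D 0 + (∑ i, e i + ∑ j, r j) := by
    rw [Pool.Agent.X180.TP.dims fun i => (hT.2 i).2.1, add_assoc]
  have htr : D 0 = ∑ i, n i := by
    have h3 := hT.1 0
    rw [hE0, Pool.Agent.X180.OP.trdeg_base hind] at h3
    exact_mod_cast h3.symm
  refine Pool.Agent.X180.OC.tow_ab hy hΓ hA hps hT (fun _ => rfl) hF fun lam' h0 => ?_
  rw [hE0, htr] at h0
  rw [htr]
  exact lc_base hy.1 (fun P hP => hP.1) (fun P hP => hy.2.2.1 P hP.1) hw0 hws hlc hx0 hind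
    (by rw [← htr, ← hn']; exact hy.2.1) Finset.univ k0
    (fun P hP a v h1 h2 => by
      obtain ⟨h5, h6⟩ := hm P hP a v h1 h2
      exact ⟨h5, fun ⟨i, _, hi⟩ => h6 ⟨i, hi⟩⟩) h0

/-- **Nonvanishing for pairs over towers over log canonical arrangements.** -/
theorem lc_tow_nv (hw0 : ∀ i k, 0 ≤ wt i k) (hws : ∀ i, (n i + 1 : ℚ) ≤ ∑ k, wt i k)
    (hlc : LcArr (⊥ : IntermediateField ℂ ℂ) ℓ wt) {Δ : Place ℂ K → ℚ}
    (hy : Pool.Agent.X180.OP.IsPair y (D (Fin.last l) + ∑ j, r j) Δ)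
    {x : ∀ i, Fin (n i + 1) → K}
    (hx0 : ∀ i, x i 0 ≠ 0) (hind : AlgebraicIndependent ℂ (Pool.Agent.X180.OP.affine x))
    (hE0 : E 0 = Pool.Agent.X180.OP.BaseField x) (I : Finset (Fin m)) (k0 : ∀ i, Fin (q i))
    (hm : ∀ P, IsPrimeDivisor y P →
      ∀ (a : Fin m → ℤ) (v : ∀ i, Fin (q i) → ℕ),
      (∀ i, MOrd P (fun k j => algebraMap ℂ K (ℓ i k j)) (x i) (a i) (v i)) → (∃ i, v i ≠ 0) →
      1 - Δ P ≤ ∑ i, ((mx ℓ i (v i) : ℚ) - ∑ k, wt i k * v i k) ∧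
        ((∃ i ∈ I, ∑ k, wt i k = (n i + 1 : ℚ) ∧ v i (k0 i) ≠ 0) →
          1 - Δ P < ∑ i, ((mx ℓ i (v i) : ℚ) - ∑ k, wt i k * v i k)))
    (hT : Pool.Agent.X180.OC.IsTower {P | IsPrimeDivisor y P ∧ Δ P < 1}
      (fun P => (Δ P : ℝ)) E D e lam)
    {w : ∀ j, Fin (s j) → ℚ}
    (hF : Pool.Agent.X180.OP.Fibres y (D (Fin.last l) + ∑ j, r j) Δ
      {P | IsPrimeDivisor y P ∧ Δ P < 1} (E (Fin.last l)) r s w) :
    Pool.Agent.X180.OP.Nonvanishing y (D (Fin.last l) + ∑ j, r j) Δ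
      (∑ i ∈ I, n i + ∑ i, lam i + Pool.Agent.X180.OP.big r s w) r s w := by
  have hn' : D (Fin.last l) + ∑ j, r j = D 0 + (∑ i, e i + ∑ j, r j) := by
    rw [Pool.Agent.X180.TP.dims fun i => (hT.2 i).2.1, add_assoc]
  have htr : D 0 = ∑ i, n i := by
    have h3 := hT.1 0
    rw [hE0, Pool.Agent.X180.OP.trdeg_base hind] at h3
    exact_mod_cast h3.symm
  refine Pool.Agent.X180.OC.tow_non hy hT hF fun lam' h0 => ?_
  rw [hE0, htr] at h0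
  rw [htr]
  exact lc_base hy.1 (fun P hP => hP) (fun P hP => hy.2.2.1 P hP) hw0 hws hlc hx0 hind
    (by rw [← htr, ← hn']; exact hy.2.1) I k0
    (fun P hP a v h1 h2 => hm P hP a v h1 h2) h0

/-- **Nonvanishing for varieties over towers over log canonical arrangements.** -/
theorem lc_dcan_nv (hw0 : ∀ i k, 0 ≤ wt i k) (hws : ∀ i, (n i + 1 : ℚ) ≤ ∑ k, wt i k)
    (hlc : LcArr (⊥ : IntermediateField ℂ ℂ) ℓ wt)
    (hy : Pool.Agent.X180.OP.IsCanonicalVariety y (D (Fin.last l) + ∑ j, r j))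
    {x : ∀ i, Fin (n i + 1) → K}
    (hx0 : ∀ i, x i 0 ≠ 0) (hind : AlgebraicIndependent ℂ (Pool.Agent.X180.OP.affine x))
    (hE0 : E 0 = Pool.Agent.X180.OP.BaseField x) (I : Finset (Fin m)) (k0 : ∀ i, Fin (q i))
    (hm : ∀ P, IsPrimeDivisor y P →
      ∀ (a : Fin m → ℤ) (v : ∀ i, Fin (q i) → ℕ),
      (∀ i, MOrd P (fun k j => algebraMap ℂ K (ℓ i k j)) (x i) (a i) (v i)) → (∃ i, v i ≠ 0) →
      1 ≤ ∑ i, ((mx ℓ i (v i) : ℚ) - ∑ k, wt i k * v i k) ∧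
        ((∃ i ∈ I, ∑ k, wt i k = (n i + 1 : ℚ) ∧ v i (k0 i) ≠ 0) →
          1 < ∑ i, ((mx ℓ i (v i) : ℚ) - ∑ k, wt i k * v i k)))
    (hT : Pool.Agent.X180.OD.IsTower {P | IsPrimeDivisor y P} (fun _ => 0) E D e lam)
    {w : ∀ j, Fin (s j) → ℚ}
    (hF : Pool.Agent.X180.OP.CanonicalFibres y (E (Fin.last l)) r s w) :
    Pool.Agent.X180.OP.CanonicalNonvanishing y (D (Fin.last l) + ∑ j, r j)
      (∑ i ∈ I, n i + ∑ i, lam i + Pool.Agent.X180.OP.big r s w) r s w := by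
  have hn' : D (Fin.last l) + ∑ j, r j = D 0 + (∑ i, e i + ∑ j, r j) := by
    rw [Pool.Agent.X180.TP.dims fun i => (hT.2 i).2.1, add_assoc]
  have htr : D 0 = ∑ i, n i := by
    have h3 := hT.1 0
    rw [hE0, Pool.Agent.X180.OP.trdeg_base hind] at h3
    exact_mod_cast h3.symm
  refine Pool.Agent.X180.OD.dcan_non hy hT hF fun lam' h0 => ?_
  rw [hE0, htr] at h0
  rw [htr]
  exact lc_base_zero hy.1 hw0 hws hlc hx0 hind
    (by rw [← htr, ← hn']; exact hy.2.1) I k0 hm h0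

/-- **Abundance for varieties over towers over log canonical arrangements.** -/
theorem lc_dcan_ab (hw0 : ∀ i k, 0 ≤ wt i k) (hws : ∀ i, (n i + 1 : ℚ) ≤ ∑ k, wt i k)
    (hlc : LcArr (⊥ : IntermediateField ℂ ℂ) ℓ wt)
    (hy : Pool.Agent.X180.OP.IsCanonicalVariety y (D (Fin.last l) + ∑ j, r j))
    {x : ∀ i, Fin (n i + 1) → K}
    (hx0 : ∀ i, x i 0 ≠ 0) (hind : AlgebraicIndependent ℂ (Pool.Agent.X180.OP.affine x))
    (hE0 : E 0 = Pool.Agent.X180.OP.BaseField x) (k0 : ∀ i, Fin (q i))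
    (hm : ∀ P, IsPrimeDivisor y P →
      ∀ (a : Fin m → ℤ) (v : ∀ i, Fin (q i) → ℕ),
      (∀ i, MOrd P (fun k j => algebraMap ℂ K (ℓ i k j)) (x i) (a i) (v i)) → (∃ i, v i ≠ 0) →
      1 ≤ ∑ i, ((mx ℓ i (v i) : ℚ) - ∑ k, wt i k * v i k) ∧
        ((∃ i, ∑ k, wt i k = (n i + 1 : ℚ) ∧ v i (k0 i) ≠ 0) →
          1 < ∑ i, ((mx ℓ i (v i) : ℚ) - ∑ k, wt i k * v i k)))
    (hT : Pool.Agent.X180.OD.IsTower {P | IsPrimeDivisor y P} (fun _ => 0) E D e e)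
    {w : ∀ j, Fin (s j) → ℚ}
    (hF : Pool.Agent.X180.OP.CanonicalFibres y (E (Fin.last l)) r s w) :
    Pool.Agent.X180.OP.CanonicalAbundance y (D (Fin.last l) + ∑ j, r j) (D (Fin.last l)) r s w := by
  have hn' : D (Fin.last l) + ∑ j, r j = D 0 + (∑ i, e i + ∑ j, r j) := by
    rw [Pool.Agent.X180.TP.dims fun i => (hT.2 i).2.1, add_assoc]
  have htr : D 0 = ∑ i, n i := by
    have h3 := hT.1 0
    rw [hE0, Pool.Agent.X180.OP.trdeg_base hind] at h3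
    exact_mod_cast h3.symm
  refine Pool.Agent.X180.OD.dcan_ab hy hT (fun _ => rfl) hF fun lam' h0 => ?_
  rw [hE0, htr] at h0
  rw [htr]
  exact lc_base_zero hy.1 hw0 hws hlc hx0 hind
    (by rw [← htr, ← hn']; exact hy.2.1) Finset.univ k0
    (fun P hP a v h1 h2 => by
      obtain ⟨h5, h6⟩ := hm P hP a v h1 h2
      exact ⟨h5, fun ⟨i, _, hi⟩ => h6 ⟨i, hi⟩⟩) h0

end lc

section small

variable {v q d : ℕ} {ℓ : Fin q → Fin (v + 1) → ℂ} {K : Type} [Field K]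
    [Algebra ℂ K] {N l c : ℕ} {E : Fin (l + 1) → IntermediateField ℂ K} {D : Fin (l + 1) → ℕ}
    {e lam : Fin l → ℕ} {r s : Fin c → ℕ} {y : Fin (N + 1) → K}

/-- **Abundance for pairs over towers over subvarieties of projective space.** -/
theorem small_tow_ab (hd : 0 < d) (hI : Independent d ℓ) (hg : GeneralPosition ℓ)
    (hq : v + 1 ≤ q) {Δ Γ A : Place ℂ K → ℚ}
    (hy : Pool.Agent.X180.OP.IsPair y (D (Fin.last l) + ∑ j, r j) Δ) (hΓ : Effective y Γ)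
    (hA : Effective y A)
    (hps : Pool.Agent.X180.OP.PseudoEffective y (D (Fin.last l) + ∑ j, r j) (Δ - Γ) A)
    {b : Fin (v + 1) → K} (hl : ∀ i, lf (ℓ i) b ≠ 0) (hb : ∃ j, b j ≠ 0) (hE0 : E 0 = RF ℂ b)
    {wt : Fin q → ℚ} (hwt0 : ∀ i, 0 ≤ wt i)
    (hlt : (((D 0 + 1) * (v - D 0 + d).choose (v - D 0) : ℕ) : ℚ) ≤ ∑ i, wt i) (k0 : Fin q)
    (hm : ∀ P ∈ Pool.Agent.X180.OP.Relevant y (D (Fin.last l) + ∑ j, r j) Δ Γ A,
      ∀ (a : ℤ) (μ : Fin q → ℕ), OrdData P ℓ b a μ → μ ≠ 0 →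
      ((min (Finset.univ.filter fun i => μ i ≠ 0).card ((v - D 0 + d).choose (v - D 0)) : ℕ) : ℚ) ≤
        ((v - D 0 + d).choose (v - D 0) : ℕ) * Δ P + ∑ i, (1 - wt i) * μ i ∧
      ((((D 0 + 1) * (v - D 0 + d).choose (v - D 0) : ℕ) : ℚ) = ∑ i, wt i → μ k0 ≠ 0 →
        ((min (Finset.univ.filter fun i => μ i ≠ 0).card ((v - D 0 + d).choose (v - D 0)) : ℕ)
          : ℚ) < ((v - D 0 + d).choose (v - D 0) : ℕ) * Δ P + ∑ i, (1 - wt i) * μ i))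
    (hT : Pool.Agent.X180.OC.IsTower
      {P | P ∈ Pool.Agent.X180.OP.Relevant y (D (Fin.last l) + ∑ j, r j) Δ Γ A ∧ Δ P < 1}
      (fun P => (Δ P : ℝ)) E D e e)
    {w : ∀ j, Fin (s j) → ℚ}
    (hF : Pool.Agent.X180.OP.Fibres y (D (Fin.last l) + ∑ j, r j) Δ
      {P | P ∈ Pool.Agent.X180.OP.Relevant y (D (Fin.last l) + ∑ j, r j) Δ Γ A ∧ Δ P < 1}
      (E (Fin.last l)) r s w) :
    Pool.Agent.X180.OP.Abundance y (D (Fin.last l) + ∑ j, r j) Δ Γ (D (Fin.last l)) r s w := by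
  have hn' : D (Fin.last l) + ∑ j, r j = D 0 + (∑ i, e i + ∑ j, r j) := by
    rw [Pool.Agent.X180.TP.dims fun i => (hT.2 i).2.1, add_assoc]
  have htr : Algebra.trdeg ℂ (RF ℂ b) = (D 0 : ℕ) := by
    rw [← hE0]
    exact hT.1 0
  refine Pool.Agent.X180.OC.tow_ab hy hΓ hA hps hT (fun _ => rfl) hF fun lam' h0 => ?_
  rw [hE0] at h0
  exact (small_pair hd hI hg hq hy.1 hl hb htr (by rw [← hn']; exact hy.2.1) (fun P hP => hP.1)
    (fun P hP => hy.2.2.1 P hP.1) hwt0 hlt (fun P hP c e ho he => (hm P hP c e ho he).1) h0).2 k0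
    fun heq P hP c e ho he => (hm P hP c e ho (fun h => he (by rw [h]; rfl))).2 heq he

theorem small_zero {lam' sd : ℕ} (hd : 0 < d) (hI : Independent d ℓ) (hg : GeneralPosition ℓ)
    (hq : v + 1 ≤ q) (hy : NormalModel y) {b : Fin (v + 1) → K} {p : ℕ}
    (hl : ∀ i, lf (ℓ i) b ≠ 0) (hb : ∃ j, b j ≠ 0) (htr : Algebra.trdeg ℂ (RF ℂ b) = p)
    (hK : Algebra.trdeg ℂ K = (p + sd : ℕ))
    {wt : Fin q → ℚ} (hwt0 : ∀ i, 0 ≤ wt i)
    (hlt : (((p + 1) * (v - p + d).choose (v - p) : ℕ) : ℚ) ≤ ∑ i, wt i)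
    (hmult : ∀ P, IsPrimeDivisor y P → ∀ (c : ℤ) (e : Fin q → ℕ), OrdData P ℓ b c e → e ≠ 0 →
      ((min (Finset.univ.filter fun i => e i ≠ 0).card ((v - p + d).choose (v - p)) : ℕ) : ℚ) ≤
        ∑ i, (1 - wt i) * e i)
    (h0 : HasForms (p + sd) {P | IsPrimeDivisor y P} (fun _ => 0) (RF ℂ b) sd lam') :
    KodairaGe (p + sd) {P | IsPrimeDivisor y P} (fun _ => 0) lam' ∧
      (∀ k0 : Fin q, ((((p + 1) * (v - p + d).choose (v - p) : ℕ) : ℚ) = ∑ i, wt i →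
        ∀ P, IsPrimeDivisor y P → ∀ (c : ℤ) (e : Fin q → ℕ), OrdData P ℓ b c e → e k0 ≠ 0 →
        ((min (Finset.univ.filter fun i => e i ≠ 0).card ((v - p + d).choose (v - p)) : ℕ) : ℚ) <
          ∑ i, (1 - wt i) * e i) →
        KodairaGe (p + sd) {P | IsPrimeDivisor y P} (fun _ => 0) (p + lam')) := by
  have h1 := small_pair (S := {P | IsPrimeDivisor y P}) (Δ := fun _ => 0) (lam := lam') hd hI hg hq
    hy hl hb htr hK (fun P hP => hP) (fun P _ => le_rfl) hwt0 hlt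
    (fun P hP c e ho he => by
      rw [mul_zero, zero_add]
      exact hmult P hP c e ho he)
    (h0.mono fun P _ => by
      simp only [Rat.cast_zero]
      exact (Pool.Agent.X180.OP.hor_zero' _ P).ge)
  simp only [Rat.cast_zero] at h1
  refine ⟨h1.1, fun k0 hstr => h1.2 k0 fun heq P hP c e ho he => ?_⟩
  rw [mul_zero, zero_add]
  exact hstr heq P hP c e ho he

/-- **Nonvanishing for varieties over towers over subvarieties of projective space.** -/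
theorem small_dcan_nv (hd : 0 < d) (hI : Independent d ℓ) (hg : GeneralPosition ℓ)
    (hq : v + 1 ≤ q)
    (hy : Pool.Agent.X180.OP.IsCanonicalVariety y (D (Fin.last l) + ∑ j, r j))
    {b : Fin (v + 1) → K} (hl : ∀ i, lf (ℓ i) b ≠ 0) (hb : ∃ j, b j ≠ 0) (hE0 : E 0 = RF ℂ b)
    {wt : Fin q → ℚ} (hwt0 : ∀ i, 0 ≤ wt i)
    (hlt : (((D 0 + 1) * (v - D 0 + d).choose (v - D 0) : ℕ) : ℚ) ≤ ∑ i, wt i)
    (hm : ∀ P, IsPrimeDivisor y P → ∀ (a : ℤ) (μ : Fin q → ℕ), OrdData P ℓ b a μ → μ ≠ 0 →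
      ((min (Finset.univ.filter fun i => μ i ≠ 0).card ((v - D 0 + d).choose (v - D 0)) : ℕ) : ℚ) ≤
        ∑ i, (1 - wt i) * μ i)
    (hT : Pool.Agent.X180.OD.IsTower {P | IsPrimeDivisor y P} (fun _ => 0) E D e lam)
    {w : ∀ j, Fin (s j) → ℚ}
    (hF : Pool.Agent.X180.OP.CanonicalFibres y (E (Fin.last l)) r s w) :
    Pool.Agent.X180.OP.CanonicalNonvanishing y (D (Fin.last l) + ∑ j, r j)
      (∑ i, lam i + Pool.Agent.X180.OP.big r s w) r s w ∧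
    (∀ k0 : Fin q, ((((D 0 + 1) * (v - D 0 + d).choose (v - D 0) : ℕ) : ℚ) = ∑ i, wt i →
      ∀ P, IsPrimeDivisor y P → ∀ (a : ℤ) (μ : Fin q → ℕ), OrdData P ℓ b a μ → μ k0 ≠ 0 →
      ((min (Finset.univ.filter fun i => μ i ≠ 0).card ((v - D 0 + d).choose (v - D 0)) : ℕ) : ℚ) <
        ∑ i, (1 - wt i) * μ i) →
      Pool.Agent.X180.OP.CanonicalNonvanishing y (D (Fin.last l) + ∑ j, r j)
        (D 0 + ∑ i, lam i + Pool.Agent.X180.OP.big r s w) r s w) := by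
  have hn' : D (Fin.last l) + ∑ j, r j = D 0 + (∑ i, e i + ∑ j, r j) := by
    rw [Pool.Agent.X180.TP.dims fun i => (hT.2 i).2.1, add_assoc]
  have htr : Algebra.trdeg ℂ (RF ℂ b) = (D 0 : ℕ) := by
    rw [← hE0]
    exact hT.1 0
  have h2 := fun (lam' : ℕ) (h0 : HasForms (D 0 + (∑ i, e i + ∑ j, r j))
      {P | IsPrimeDivisor y P} (fun _ => 0) (RF ℂ b) (∑ i, e i + ∑ j, r j) lam') =>
    small_zero hd hI hg hq hy.1 hl hb htr (by rw [← hn']; exact hy.2.1) hwt0 hlt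
      (fun P hP c e ho he => hm P hP c e ho he) h0
  refine ⟨?_, fun k0 hstr => ?_⟩
  · have h1 := Pool.Agent.X180.OD.dcan_non (k := 0) hy hT hF fun lam' h0 => by
      rw [hE0] at h0
      rw [zero_add]
      exact (h2 lam' h0).1
    rwa [zero_add] at h1
  · refine Pool.Agent.X180.OD.dcan_non hy hT hF fun lam' h0 => ?_
    rw [hE0] at h0
    exact (h2 lam' h0).2 k0 hstr

/-- **Abundance for varieties over towers over subvarieties of projective space.** -/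
theorem small_dcan_ab (hd : 0 < d) (hI : Independent d ℓ) (hg : GeneralPosition ℓ)
    (hq : v + 1 ≤ q)
    (hy : Pool.Agent.X180.OP.IsCanonicalVariety y (D (Fin.last l) + ∑ j, r j))
    {b : Fin (v + 1) → K} (hl : ∀ i, lf (ℓ i) b ≠ 0) (hb : ∃ j, b j ≠ 0) (hE0 : E 0 = RF ℂ b)
    {wt : Fin q → ℚ} (hwt0 : ∀ i, 0 ≤ wt i)
    (hlt : (((D 0 + 1) * (v - D 0 + d).choose (v - D 0) : ℕ) : ℚ) ≤ ∑ i, wt i) (k0 : Fin q)
    (hm : ∀ P, IsPrimeDivisor y P → ∀ (a : ℤ) (μ : Fin q → ℕ), OrdData P ℓ b a μ → μ ≠ 0 →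
      ((min (Finset.univ.filter fun i => μ i ≠ 0).card ((v - D 0 + d).choose (v - D 0)) : ℕ) : ℚ) ≤
        ∑ i, (1 - wt i) * μ i ∧
      ((((D 0 + 1) * (v - D 0 + d).choose (v - D 0) : ℕ) : ℚ) = ∑ i, wt i → μ k0 ≠ 0 →
        ((min (Finset.univ.filter fun i => μ i ≠ 0).card ((v - D 0 + d).choose (v - D 0)) : ℕ)
          : ℚ) < ∑ i, (1 - wt i) * μ i))
    (hT : Pool.Agent.X180.OD.IsTower {P | IsPrimeDivisor y P} (fun _ => 0) E D e e)
    {w : ∀ j, Fin (s j) → ℚ}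
    (hF : Pool.Agent.X180.OP.CanonicalFibres y (E (Fin.last l)) r s w) :
    Pool.Agent.X180.OP.CanonicalAbundance y (D (Fin.last l) + ∑ j, r j) (D (Fin.last l)) r s w := by
  have hn' : D (Fin.last l) + ∑ j, r j = D 0 + (∑ i, e i + ∑ j, r j) := by
    rw [Pool.Agent.X180.TP.dims fun i => (hT.2 i).2.1, add_assoc]
  have htr : Algebra.trdeg ℂ (RF ℂ b) = (D 0 : ℕ) := by
    rw [← hE0]
    exact hT.1 0
  refine Pool.Agent.X180.OD.dcan_ab hy hT (fun _ => rfl) hF fun lam' h0 => ?_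
  rw [hE0] at h0
  exact (small_zero hd hI hg hq hy.1 hl hb htr (by rw [← hn']; exact hy.2.1) hwt0 hlt
    (fun P hP c e ho he => (hm P hP c e ho he).1) h0).2 k0
    fun heq P hP c e ho he => (hm P hP c e ho (fun h => he (by rw [h]; rfl))).2 heq he

end small

end Pool.Agent.X325.OB
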